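import Pool.Agent.Lib.MP_06c549_co.T6H.Step56
import Pool.Agent.Lib.MP_06c549_co.T6H.K3Hcen
import Pool.Agent.Lib.MP_06c549_co.T6H.Ex3
import Pool.Agent.Lib.MP_06c549_co.T6H.K3P
import Pool.Agent.Lib.MP_06c549_co.T6H.Loc
import Pool.Agent.Lib.MP_06c549_co.T6H.Rew2

section
/-!
# MP_06c549_co, T6H/K13: the outer face is a triangle: data and statements

The outer face `o` is a triangle `x0 x1 x2` of cubic vertices with the inner neighbours `b0 b1 b2`; the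
outer edge `e0 = x0 x1` has the inner face `F0`, and so on cyclically.
-/
set_option autoImplicit false

namespace Pool.Agent.Lib.MP06c549.T6H

open Finset

namespace Gr

/-- the data of the case `k = 3` -/
structure Q3 (m : ℕ) (G : Gr) (o x0 x1 x2 e0 e1 e2 g0 g1 g2 F0 F1 F2 b0 b1 b2 : ℕ) : Prop where
  mn : Cx 7 2 4 13 m o G
  p1 : G.P1
  p2 : G.P2 o
  p3 : G.P3 o
  tri : G.Tri o x0 x1 x2 e0 e1 e2 g0 g1 g2 F0 F1 F2
  s0 : G.Spk o x0 e2 g0 e0 F2 F0 b0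
  s1 : G.Spk o x1 e0 g1 e1 F0 F1 b1
  s2 : G.Spk o x2 e1 g2 e2 F1 F2 b2
  wt : 1 ≤ G.w e0 + G.w e1 + G.w e2

/-- the data, with usable faces `F0 F1 F2` and different `b0 b1 b2` -/
structure Q3b (m : ℕ) (G : Gr) (o x0 x1 x2 e0 e1 e2 g0 g1 g2 F0 F1 F2 b0 b1 b2 : ℕ) : Prop extends
    Q3 m G o x0 x1 x2 e0 e1 e2 g0 g1 g2 F0 F1 F2 b0 b1 b2 where
  u0 : F0 ∉ G.us
  u1 : F1 ∉ G.us
  u2 : F2 ∉ G.us
  n01 : b0 ≠ b1
  n12 : b1 ≠ b2
  n20 : b2 ≠ b0

section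

variable {m : ℕ} {G : Gr} {o x0 x1 x2 e0 e1 e2 g0 g1 g2 F0 F1 F2 b0 b1 b2 : ℕ}

lemma Q3.rot (h : Q3 m G o x0 x1 x2 e0 e1 e2 g0 g1 g2 F0 F1 F2 b0 b1 b2) :
    Q3 m G o x1 x2 x0 e1 e2 e0 g1 g2 g0 F1 F2 F0 b1 b2 b0 := by
  have t := h.tri
  exact ⟨h.mn, h.p1, h.p2, h.p3, ⟨t.c1, t.c2, t.c0, t.a1, t.a2, t.a0, t.n12, t.n20, t.n01, t.m12,
    t.m20, t.m01⟩, h.s1, h.s2, h.s0, by have := h.wt; omega⟩

lemma Q3.refl (h : Q3 m G o x0 x1 x2 e0 e1 e2 g0 g1 g2 F0 F1 F2 b0 b1 b2) :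
    Q3 m G o x1 x0 x2 e0 e2 e1 g1 g0 g2 F0 F2 F1 b1 b0 b2 := by
  have t := h.tri
  exact ⟨h.mn, h.p1, h.p2, h.p3, ⟨t.c1.symm, t.c0.symm, t.c2.symm, t.a0.symm, t.a2.symm, t.a1.symm,
    t.n01.symm, t.n20.symm, t.n12.symm, t.m20.symm, t.m12.symm, t.m01.symm⟩, h.s1.symm, h.s0.symm,
    h.s2.symm, by have := h.wt; omega⟩

lemma Q3b.rot (h : Q3b m G o x0 x1 x2 e0 e1 e2 g0 g1 g2 F0 F1 F2 b0 b1 b2) :
    Q3b m G o x1 x2 x0 e1 e2 e0 g1 g2 g0 F1 F2 F0 b1 b2 b0 :=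
  ⟨h.toQ3.rot, h.u1, h.u2, h.u0, h.n12, h.n20, h.n01⟩

lemma Q3b.refl (h : Q3b m G o x0 x1 x2 e0 e1 e2 g0 g1 g2 F0 F1 F2 b0 b1 b2) :
    Q3b m G o x1 x0 x2 e0 e2 e1 g1 g0 g2 F0 F2 F1 b1 b0 b2 :=
  ⟨h.toQ3.refl, h.u0, h.u2, h.u1, h.n01.symm, h.n20.symm, h.n12.symm⟩

end

/-! ## The statements

`Q3 m G o x0 x1 x2 e0 e1 e2 g0 g1 g2 F0 F1 F2 b0 b1 b2` is abbreviated by quantifying over everything.
By `Q3b.rot` and `Q3b.refl` each statement holds for all six orders of `0, 1, 2`. -/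

/-- K4, K5 (helper42): the faces are usable and the `b`s are different -/
def SpecQ3U (m : ℕ) : Prop := ∀ (G : Gr) (o x0 x1 x2 e0 e1 e2 g0 g1 g2 F0 F1 F2 b0 b1 b2 : ℕ),
  Q3 m G o x0 x1 x2 e0 e1 e2 g0 g1 g2 F0 F1 F2 b0 b1 b2 →
    Q3b m G o x0 x1 x2 e0 e1 e2 g0 g1 g2 F0 F1 F2 b0 b1 b2

/-- K6 (helper88) -/
def SpecQ3Near (m : ℕ) : Prop := ∀ (G : Gr) (o x0 x1 x2 e0 e1 e2 g0 g1 g2 F0 F1 F2 b0 b1 b2 : ℕ),
  Q3b m G o x0 x1 x2 e0 e1 e2 g0 g1 g2 F0 F1 F2 b0 b1 b2 → G.Near x0 x1 x2 b0 b1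

/-- Q3 (helper97) -/
def SpecQ3Touch (m : ℕ) : Prop := ∀ (G : Gr) (o x0 x1 x2 e0 e1 e2 g0 g1 g2 F0 F1 F2 b0 b1 b2 : ℕ),
  Q3 m G o x0 x1 x2 e0 e1 e2 g0 g1 g2 F0 F1 F2 b0 b1 b2 → b0 ≠ b1 → G.Touch b0 F1 →
    ¬ G.Touch b1 F2

/-- K7 (helper97) -/
def SpecQ3Leg (m : ℕ) : Prop := ∀ (G : Gr) (o x0 x1 x2 e0 e1 e2 g0 g1 g2 F0 F1 F2 b0 b1 b2 : ℕ),
  Q3b m G o x0 x1 x2 e0 e1 e2 g0 g1 g2 F0 F1 F2 b0 b1 b2 → ¬ G.Touch b0 F1 →
    ∃ d d' O, G.Leg o F0 F1 F2 b0 g0 d d' F2 F0 O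

/-- K8 (helper83): move P. The set `A` has at most two elements, each adjacent to a `b`; the edges at
`b1` and at `b2` have an end in `{b0, x1, x2} ∪ A`; one of the `b`s touches a further face `O`. -/
def SpecQ3P (m : ℕ) : Prop := ∀ (G : Gr) (o x0 x1 x2 e0 e1 e2 g0 g1 g2 F0 F1 F2 b0 b1 b2 : ℕ),
  Q3b m G o x0 x1 x2 e0 e1 e2 g0 g1 g2 F0 F1 F2 b0 b1 b2 → ∀ (A : Finset ℕ) (O b : ℕ), A.card ≤ 2 →
    (∀ a ∈ A, a ≠ b1 ∧ a ≠ b2 ∧ ∃ d, G.E d b0 a ∨ G.E d b1 a ∨ G.E d b2 a) →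
    (∀ d, d ∈ G.star b1 ∨ d ∈ G.star b2 →
      (G.p d = b0 ∨ G.p d = x1 ∨ G.p d = x2 ∨ G.p d ∈ A) ∨
      (G.q d = b0 ∨ G.q d = x1 ∨ G.q d = x2 ∨ G.q d ∈ A)) →
    (b = b0 ∨ b = b1 ∨ b = b2) → G.Touch b O → O ≠ o → O ≠ F0 → O ≠ F1 → O ≠ F2 → False

/-- K9 (helper17): `b0` touches the opposite face (from `SpecQ3Near`, `SpecQ3Leg`, `SpecQ3Touch`,
`SpecQ3P`) -/
def SpecQ3Opp (m : ℕ) : Prop := ∀ (G : Gr) (o x0 x1 x2 e0 e1 e2 g0 g1 g2 F0 F1 F2 b0 b1 b2 : ℕ),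
  Q3b m G o x0 x1 x2 e0 e1 e2 g0 g1 g2 F0 F1 F2 b0 b1 b2 → ¬ G.Touch b0 F1

/-- K10 (helper83): two adjacent `b`s -/
def SpecQ3Adj (m : ℕ) : Prop := ∀ (G : Gr) (o x0 x1 x2 e0 e1 e2 g0 g1 g2 F0 F1 F2 b0 b1 b2
    d0 d0' d1 d1' d2 d2' O0 O1 O2 : ℕ),
  Q3b m G o x0 x1 x2 e0 e1 e2 g0 g1 g2 F0 F1 F2 b0 b1 b2 →
    G.Leg o F0 F1 F2 b0 g0 d0 d0' F2 F0 O0 → G.Leg o F0 F1 F2 b1 g1 d1 d1' F0 F1 O1 →
    G.Leg o F0 F1 F2 b2 g2 d2 d2' F1 F2 O2 → ∀ d, ¬ G.E d b0 b1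

/-- K11 (helper54): no two adjacent `b`s, three different common neighbours `c0` of `b0, b1`, `c1` of
`b1, b2`, `c2` of `b2, b0` -/
def SpecQ3Hex (m : ℕ) : Prop := ∀ (G : Gr) (o x0 x1 x2 e0 e1 e2 g0 g1 g2 F0 F1 F2 b0 b1 b2
    d0 d0' d1 d1' d2 d2' O0 O1 O2 c0 c1 c2 p0 q0 p1 q1 p2 q2 : ℕ),
  Q3b m G o x0 x1 x2 e0 e1 e2 g0 g1 g2 F0 F1 F2 b0 b1 b2 →
    G.Leg o F0 F1 F2 b0 g0 d0 d0' F2 F0 O0 → G.Leg o F0 F1 F2 b1 g1 d1 d1' F0 F1 O1 →
    G.Leg o F0 F1 F2 b2 g2 d2 d2' F1 F2 O2 →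
    (∀ d, ¬ G.E d b0 b1) → (∀ d, ¬ G.E d b1 b2) → (∀ d, ¬ G.E d b2 b0) →
    G.E p0 b0 c0 → G.E q0 c0 b1 → G.E p1 b1 c1 → G.E q1 c1 b2 → G.E p2 b2 c2 → G.E q2 c2 b0 →
    c0 ≠ x0 → c0 ≠ x1 → c0 ≠ x2 → c1 ≠ x0 → c1 ≠ x1 → c1 ≠ x2 → c2 ≠ x0 → c2 ≠ x1 → c2 ≠ x2 →
    c0 ≠ c1 → c1 ≠ c2 → c2 ≠ c0 → False

/-- K12 (helper26, helper61): no two adjacent `b`s, a common neighbour `c` of the three -/
def SpecQ3Cen (m : ℕ) : Prop := ∀ (G : Gr) (o x0 x1 x2 e0 e1 e2 g0 g1 g2 F0 F1 F2 b0 b1 b2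
    d0 d0' d1 d1' d2 d2' O0 O1 O2 c p0 p1 p2 : ℕ),
  Q3b m G o x0 x1 x2 e0 e1 e2 g0 g1 g2 F0 F1 F2 b0 b1 b2 →
    G.Leg o F0 F1 F2 b0 g0 d0 d0' F2 F0 O0 → G.Leg o F0 F1 F2 b1 g1 d1 d1' F0 F1 O1 →
    G.Leg o F0 F1 F2 b2 g2 d2 d2' F1 F2 O2 →
    (∀ d, ¬ G.E d b0 b1) → (∀ d, ¬ G.E d b1 b2) → (∀ d, ¬ G.E d b2 b0) →
    G.E p0 b0 c → G.E p1 b1 c → G.E p2 b2 c → c ≠ x0 → c ≠ x1 → c ≠ x2 → False

/-- the case `k = 3` (helper97, from all the statements above) -/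
def SpecQ3 (m : ℕ) : Prop := ∀ (G : Gr) (o x0 x1 x2 e0 e1 e2 g0 g1 g2 F0 F1 F2 : ℕ),
  Cx 7 2 4 13 m o G → G.P1 → G.P2 o → G.P3 o → G.Tri o x0 x1 x2 e0 e1 e2 g0 g1 g2 F0 F1 F2 → False

end Gr

end Pool.Agent.Lib.MP06c549.T6H
end

section
/-!
# MP_06c549_co, T6H/K13, the outer face is a triangle: the graph without it has no cut vertex
-/
set_option autoImplicit false

namespace Pool.Agent.Lib.MP06c549.T6H

open Finset

namespace Gr

variable {G : Gr}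

section

variable {m : ℕ} {o x0 x1 x2 e0 e1 e2 g0 g1 g2 F0 F1 F2 b0 b1 b2 : ℕ}

lemma Q3.xC (h : Q3 m G o x0 x1 x2 e0 e1 e2 g0 g1 g2 F0 F1 F2 b0 b1 b2) :
    ({x0, x1, x2} : Finset ℕ) ⊆ G.vs := by
  have hG := h.mn.cls.good
  exact insert_subset (h.s0.cub.mv hG) (insert_subset (h.s1.cub.mv hG)
    (singleton_subset_iff.2 (h.s2.cub.mv hG)))

lemma Q3.FC (h : Q3 m G o x0 x1 x2 e0 e1 e2 g0 g1 g2 F0 F1 F2 b0 b1 b2) :
    G.FC {x0, x1, x2} o := by
  have hG := h.mn.cls.good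
  exact FC_insert hG (FC_insert hG (FC_single hG (h.s2.cub.mv hG) (Or.inr h.s2.cub.tO))
    (h.s1.cub.mv hG) (Or.inr (Or.inl h.s1.cub.tO))) (h.s0.cub.mv hG)
    (Or.inr (Or.inl h.s0.cub.tO))

lemma Q3.card3 (h : Q3 m G o x0 x1 x2 e0 e1 e2 g0 g1 g2 F0 F1 F2 b0 b1 b2) :
    ({x0, x1, x2} : Finset ℕ).card = 3 := by
  rw [card_insert_of_notMem (by simp [h.tri.n01, h.tri.n20.symm]), card_pair h.tri.n12]

lemma Q3.cardF3 (h : Q3 m G o x0 x1 x2 e0 e1 e2 g0 g1 g2 F0 F1 F2 b0 b1 b2) :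
    ({F0, F1, F2} : Finset ℕ).card = 3 := by
  rw [card_insert_of_notMem (by simp [h.tri.m01, h.tri.m20.symm]), card_pair h.tri.m12]

lemma Q3.FB (h : Q3 m G o x0 x1 x2 e0 e1 e2 g0 g1 g2 F0 F1 F2 b0 b1 b2) :
    ({F0, F1, F2} : Finset ℕ) ⊆ (G.tf {x0, x1, x2}).erase o := by
  have key : ∀ x i, G.Touch x i → x ∈ ({x0, x1, x2} : Finset ℕ) → i ∈ G.tf {x0, x1, x2} := by
    rintro x i ⟨d, hd, h'⟩ hx
    exact mem_tf.2 ⟨d, star_sub_tds hx hd, h'⟩
  refine insert_subset (mem_erase.2 ⟨h.s0.cub.f2, key x0 _ h.s0.cub.tF' (by simp)⟩)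
    (insert_subset (mem_erase.2 ⟨h.s1.cub.f2, key x1 _ h.s1.cub.tF' (by simp)⟩)
      (singleton_subset_iff.2 (mem_erase.2 ⟨h.s2.cub.f2, key x2 _ h.s2.cub.tF' (by simp)⟩)))

/-- the edges at `x0` -/
lemma Q3.at0 (h : Q3 m G o x0 x1 x2 e0 e1 e2 g0 g1 g2 F0 F1 F2 b0 b1 b2) {d y : ℕ}
    (hd : G.E d x0 y) : (d = e2 ∧ y = x2) ∨ (d = g0 ∧ y = b0) ∨ (d = e0 ∧ y = x1) := by
  have hG := h.mn.cls.good
  have h1 := hd.left
  rw [h.s0.cub.st] at h1
  simp only [mem_insert, mem_singleton] at h1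
  rcases h1 with rfl | rfl | rfl
  · exact Or.inl ⟨rfl, hd.other hG h.tri.a2.symm⟩
  · exact Or.inr (Or.inl ⟨rfl, hd.other hG h.s0.eb⟩)
  · exact Or.inr (Or.inr ⟨rfl, hd.other hG h.tri.a0⟩)

lemma Q3.ex3 (h : Q3 m G o x0 x1 x2 e0 e1 e2 g0 g1 g2 F0 F1 F2 b0 b1 b2) (n01 : b0 ≠ b1)
    (n12 : b1 ≠ b2) (n20 : b2 ≠ b0) : G.Ex3 {x0, x1, x2} o ![g0, g1, g2] ![b0, b1, b2] where
  sub := h.xC
  ne := ⟨x0, mem_insert_self _ _⟩
  fc := h.FC
  ex := by
    intro d x y hd hx hy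
    simp only [mem_insert, mem_singleton] at hx
    rcases hx with rfl | rfl | rfl
    · rcases h.at0 hd with ⟨_, h1⟩ | h1 | ⟨_, h1⟩
      · exact absurd (by simp [h1]) hy
      · exact ⟨0, h1⟩
      · exact absurd (by simp [h1]) hy
    · rcases h.rot.at0 hd with ⟨_, h1⟩ | h1 | ⟨_, h1⟩
      · exact absurd (by simp [h1]) hy
      · exact ⟨1, h1⟩
      · exact absurd (by simp [h1]) hy
    · rcases h.rot.rot.at0 hd with ⟨_, h1⟩ | h1 | ⟨_, h1⟩
      · exact absurd (by simp [h1]) hy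
      · exact ⟨2, h1⟩
      · exact absurd (by simp [h1]) hy
  inj := by
    intro i j hij
    fin_cases i <;> fin_cases j
    · rfl
    · exact absurd hij n01
    · exact absurd hij n20.symm
    · exact absurd hij n01.symm
    · rfl
    · exact absurd hij n12
    · exact absurd hij n20
    · exact absurd hij n12.symm
    · rfl
  nb := by
    have key : ∀ b, ¬ G.Touch b o → b ∉ ({x0, x1, x2} : Finset ℕ) := by
      intro b hb hm
      simp only [mem_insert, mem_singleton] at hm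
      rcases hm with rfl | rfl | rfl
      · exact hb h.s0.cub.tO
      · exact hb h.s1.cub.tO
      · exact hb h.s2.cub.tO
    intro i
    fin_cases i
    · exact key b0 h.s0.nb
    · exact key b1 h.s1.nb
    · exact key b2 h.s2.nb
  gb := by
    intro i
    fin_cases i
    · exact h.s0.eb.right
    · exact h.s1.eb.right
    · exact h.s2.eb.right
  gt := by
    intro i
    fin_cases i
    · exact star_sub_tds (by simp) h.s0.eb.left
    · exact star_sub_tds (by simp) h.s1.eb.left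
    · exact star_sub_tds (by simp) h.s2.eb.left
  deg := by
    intro i
    fin_cases i
    · exact h.s0.db
    · exact h.s1.db
    · exact h.s2.db

lemma Q3.bnd (h : Q3 m G o x0 x1 x2 e0 e1 e2 g0 g1 g2 F0 F1 F2 b0 b1 b2) :
    13 * (G.del {x0, x1, x2} o).tau ≤ (G.del {x0, x1, x2} o).pot 7 2 4 := by
  refine h.mn.ih o _ (h.mn.cls.del h.FC) ?_
  have h1 := del_card (u := o) h.xC
  have h2 := h.card3
  omega

/-- the triangle is weighted -/
lemma Q3.wsC (h : Q3 m G o x0 x1 x2 e0 e1 e2 g0 g1 g2 F0 F1 F2 b0 b1 b2) :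
    1 ≤ G.ws (G.tds {x0, x1, x2}) := by
  have h3 : ({e0, e1, e2} : Finset ℕ) ⊆ G.tds {x0, x1, x2} := by
    intro d hd
    simp only [mem_insert, mem_singleton] at hd
    rcases hd with rfl | rfl | rfl
    · exact star_sub_tds (by simp) h.tri.a0.left
    · exact star_sub_tds (by simp) h.tri.a1.left
    · exact star_sub_tds (by simp) h.tri.a2.left
  have h4 := ws_mono (G := G) h3
  have h5 : G.ws {e0, e1, e2} = G.w e0 + G.w e1 + G.w e2 := by
    unfold ws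
    rw [sum_insert, sum_pair h.tri.c2.n2]
    · ring
    · simp only [mem_insert, mem_singleton, not_or]
      exact ⟨h.tri.c1.n2, h.tri.c0.n2.symm⟩
  have h6 := h.wt
  omega

/-- the move with all three vertices of the triangle -/
lemma Q3.move3 (h : Q3 m G o x0 x1 x2 e0 e1 e2 g0 g1 g2 F0 F1 F2 b0 b1 b2) :
    (G.del {x0, x1, x2} o).pot 7 2 4 + G.ws (G.tds {x0, x1, x2}) <
      13 * (G.del {x0, x1, x2} o).tau + 12 := by
  have h1 := h.mn.toCx0.move_T (by norm_num : 2 ≤ 4) (W := {x0, x1, x2}) (T := ∅)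
    (X₀ := {x0, x1, x2}) (Y₀ := ∅) (B := {F0, F1, F2}) h.xC h.FC (empty_subset _) h.xC
    (empty_subset _) h.FB (by
      intro d hd
      rw [union_empty]
      rcases (mem_tds.1 hd).2 with h1 | h1
      · exact Or.inl h1
      · exact Or.inr (Or.inl h1))
  rw [h.card3, h.cardF3, fpr_empty, nb_empty] at h1
  unfold tau
  omega

/-- `b0` is in no optimal cover of the graph without the triangle -/
lemma Q3.not_free (h : Q3 m G o x0 x1 x2 e0 e1 e2 g0 g1 g2 F0 F1 F2 b0 b1 b2) :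
    (G.del {x0, x1, x2} o).tau + 1 ≤ (G.del {x0, x1, x2} o).cost {b0} := by
  have hG := h.mn.cls.good
  by_contra hcon
  have hb0 : b0 ∉ ({x0, x1, x2} : Finset ℕ) := by
    intro hm
    simp only [mem_insert, mem_singleton] at hm
    rcases hm with h1 | h1 | h1
    · exact h.s0.nb (h1 ▸ h.s0.cub.tO)
    · exact h.s0.nb (h1 ▸ h.s1.cub.tO)
    · exact h.s0.nb (h1 ▸ h.s2.cub.tO)
  have h1 := h.mn.toCx0.move_T (by norm_num : 2 ≤ 4) (W := {x0, x1, x2}) (T := {b0})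
    (X₀ := {x1, x2}) (Y₀ := ∅) (B := {F0, F1, F2}) h.xC h.FC
    (singleton_subset_iff.2 (mem_sdiff.2 ⟨h.s0.eb.symm.memv hG, hb0⟩))
    ((subset_insert _ _).trans h.xC) (empty_subset _) h.FB (by
      intro d hd
      have key : ∀ x y, G.E d x y → x ∈ ({x0, x1, x2} : Finset ℕ) →
          (G.p d ∈ ({x1, x2} ∪ {b0} : Finset ℕ) ∨ G.q d ∈ ({x1, x2} ∪ {b0} : Finset ℕ)) := by
        intro x y hE hx
        have h2 : x ∈ ({x1, x2} ∪ {b0} : Finset ℕ) ∨ y ∈ ({x1, x2} ∪ {b0} : Finset ℕ) := by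
          simp only [mem_insert, mem_singleton] at hx
          rcases hx with rfl | rfl | rfl
          · right
            rcases h.at0 hE with ⟨_, h1⟩ | ⟨_, h1⟩ | ⟨_, h1⟩ <;> simp [h1]
          · left; simp
          · left; simp
        rcases hE.2 with ⟨h3, h4⟩ | ⟨h3, h4⟩
        · rw [h3, h4]; exact h2
        · rw [h3, h4]; exact h2.symm
      have hE : G.E d (G.p d) (G.q d) := ⟨tds_sub hd, Or.inl ⟨rfl, rfl⟩⟩
      have h2 : G.p d ∈ ({x1, x2} ∪ {b0} : Finset ℕ) ∨ G.q d ∈ ({x1, x2} ∪ {b0} : Finset ℕ) := by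
        rcases (mem_tds.1 hd).2 with h1 | h1
        · exact key _ _ hE h1
        · exact key _ _ hE.symm h1
      rcases h2 with h2 | h2
      · exact Or.inl h2
      · exact Or.inr (Or.inl h2))
  rw [h.card3, h.cardF3, fpr_empty, nb_empty, card_pair h.tri.n12] at h1
  have h2 := h.bnd
  omega

/-- **the graph without the triangle has no cut vertex** -/
theorem Q3.ncv (h : Q3 m G o x0 x1 x2 e0 e1 e2 g0 g1 g2 F0 F1 F2 b0 b1 b2) (n01 : b0 ≠ b1)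
    (n12 : b1 ≠ b2) (n20 : b2 ≠ b0) :
    ∀ v ∈ (G.del {x0, x1, x2} o).vs, (G.del {x0, x1, x2} o).NCV v := by
  have hC1 : ({x0, x1, x2} : Finset ℕ) = {x1, x2, x0} := by
    ext i
    simp only [mem_insert, mem_singleton]
    tauto
  have hC2 : ({x0, x1, x2} : Finset ℕ) = {x2, x0, x1} := by
    ext i
    simp only [mem_insert, mem_singleton]
    tauto
  rcases (h.ex3 n01 n12 n20).ncv_or (a := 7) (b := 2) (c := 4) (N := 13) (by norm_num)
    (by norm_num) h.mn.ih h.mn.cls h.p1 le_rfl (by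
      intro i
      fin_cases i
      · exact h.not_free
      · have h1 := h.rot.not_free
        rw [← hC1] at h1
        exact h1
      · have h1 := h.rot.rot.not_free
        rw [← hC2] at h1
        exact h1) with h1 | h1
  · have h2 := h.move3
    have h3 := h.wsC
    omega
  · exact h1

lemma Q3b.ncv (h : Q3b m G o x0 x1 x2 e0 e1 e2 g0 g1 g2 F0 F1 F2 b0 b1 b2) :
    ∀ v ∈ (G.del {x0, x1, x2} o).vs, (G.del {x0, x1, x2} o).NCV v :=
  h.toQ3.ncv h.n01 h.n12 h.n20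

lemma Q3b.conn (h : Q3b m G o x0 x1 x2 e0 e1 e2 g0 g1 g2 F0 F1 F2 b0 b1 b2) :
    (G.del {x0, x1, x2} o).Conn :=
  (h.ex3 h.n01 h.n12 h.n20).conn h.mn.cls.good h.p1

end

end Gr

end Pool.Agent.Lib.MP06c549.T6H
end

section
/-!
# MP_06c549_co, T6H/K13, the outer face is a triangle: the inner neighbours

`spec_Q3Opp'`: an inner neighbour does not touch the opposite face. `spec_Q3Leg'`: it has degree three.
-/
set_option autoImplicit false

namespace Pool.Agent.Lib.MP06c549.T6H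

open Finset

namespace Gr

variable {G : Gr}

section

variable {m : ℕ} {o x0 x1 x2 e0 e1 e2 g0 g1 g2 F0 F1 F2 b0 b1 b2 : ℕ}

lemma Q3.FC' (h : Q3 m G o x0 x1 x2 e0 e1 e2 g0 g1 g2 F0 F1 F2 b0 b1 b2) :
    ({F0, F1, F2} : Finset ℕ) ⊆ G.tf {x0, x1, x2} := h.FB.trans (erase_subset _ _)

/-- an inner neighbour does not touch the opposite face -/
theorem spec_Q3Opp' (m : ℕ) : SpecQ3Opp m := by
  intro G o x0 x1 x2 e0 e1 e2 g0 g1 g2 F0 F1 F2 b0 b1 b2 h ht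
  have hG := h.mn.cls.good
  have hx := h.ex3 h.n01 h.n12 h.n20
  have hbv := hx.bdel hG 0
  have hE := (h.mn.cls.del h.FC).good
  have h1 := Gr.cnt_eq_two hE (h.ncv _ hbv) (hx.touch hG h.p1 0)
  have h2 := sum_cntS_le (G := G) (u := o) (v := b0) h.FC'
  have hst : (G.del {x0, x1, x2} o).star b0 = (G.star b0).erase g0 := hx.star_b 0
  have c0 := h.p1.cnt hG h.s0.bF'
  have c1 := h.p1.cnt hG ht
  have c2 := h.p1.cnt hG h.s0.bF
  have hg : g0 ∈ G.star b0 := h.s0.eb.right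
  have hsub : ({g0} : Finset ℕ) ⊆ G.star b0 := singleton_subset_iff.2 hg
  have e0' := cntS_sdiff (G := G) hsub F0
  have e1' := cntS_sdiff (G := G) hsub F1
  have e2' := cntS_sdiff (G := G) hsub F2
  rw [sdiff_singleton_eq_erase, ← cnt_eq] at e0' e1' e2'
  have hs := h.s0.cub.sg
  have g1' : G.cntS {g0} F1 = 0 := by
    by_contra hne
    obtain ⟨d, hd, hd1⟩ := cntS_pos.1 (Nat.pos_of_ne_zero hne)
    rw [mem_singleton.1 hd] at hd1
    rcases hs.side hd1 with h3 | h3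
    · exact h.tri.m12 h3
    · exact h.tri.m01 h3.symm
  have hle : ∀ i, i ≠ F0 ∨ i ≠ F2 → G.cntS {g0} i ≤ 1 := by
    intro i hi
    unfold cntS
    have h3 : ¬ (G.l g0 = i ∧ G.r g0 = i) := by
      rintro ⟨h4, h5⟩
      exact h.p1.lr g0 (star_sub hg) (h4.trans h5.symm)
    have h4 : ∀ p : Prop, ∀ _ : Decidable p, (({g0} : Finset ℕ).filter fun _ => p).card =
        if p then 1 else 0 := by
      intro p _
      by_cases hp : p <;> simp [hp]
    have h5 : (({g0} : Finset ℕ).filter fun d => G.l d = i) =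
        ({g0} : Finset ℕ).filter fun _ => G.l g0 = i :=
      filter_congr fun d hd => by rw [mem_singleton.1 hd]
    have h6 : (({g0} : Finset ℕ).filter fun d => G.r d = i) =
        ({g0} : Finset ℕ).filter fun _ => G.r g0 = i :=
      filter_congr fun d hd => by rw [mem_singleton.1 hd]
    rw [h5, h6, h4, h4]
    by_cases h7 : G.l g0 = i <;> by_cases h8 : G.r g0 = i
    · exact absurd ⟨h7, h8⟩ h3
    · rw [if_pos h7, if_neg h8]
    · rw [if_neg h7, if_pos h8]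
    · rw [if_neg h7, if_neg h8]
      exact Nat.zero_le _
  have f0 := hle F0 (Or.inr h.tri.m20.symm)
  have f2 := hle F2 (Or.inl h.tri.m20)
  rw [sum_insert (by simp [h.tri.m01, h.tri.m20.symm]), sum_pair h.tri.m12, hst] at h2
  have h1' : (G.del {x0, x1, x2} o).cnt o b0 = 2 := h1
  omega

/-- an inner neighbour has degree three -/
theorem spec_Q3Leg' (m : ℕ) : SpecQ3Leg m := by
  intro G o x0 x1 x2 e0 e1 e2 g0 g1 g2 F0 F1 F2 b0 b1 b2 h ht
  have hG := h.mn.cls.good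
  have hx := h.ex3 h.n01 h.n12 h.n20
  have hbv : b0 ∈ (G.del {x0, x1, x2} o).vs := hx.bdel hG 0
  have hb : b0 ∈ G.vs := (mem_sdiff.1 hbv).1
  have hK := h.mn.cls.del h.FC
  have hE := hK.good
  have hst : (G.del {x0, x1, x2} o).star b0 = (G.star b0).erase g0 := hx.star_b 0
  have hg : g0 ∈ G.star b0 := h.s0.eb.right
  have hto : (G.del {x0, x1, x2} o).Touch b0 o := hx.touch hG h.p1 0
  have hfv := Gr.card_fv hE (h.ncv _ hbv)
  rw [hst, card_erase_of_mem hg] at hfv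
  -- the degree
  have hdeg : (G.star b0).card = 3 := by
    have h1 := h.s0.db
    by_contra hne
    have h2 := cost_T (T := {b0}) (B := ((G.del {x0, x1, x2} o).fv b0).erase o)
      (a := 7) (b := 2) (c := 4) (N := 13) (by norm_num) (by norm_num)
      (h.mn.ih.mono (card_le_card sdiff_subset : (G.del {x0, x1, x2} o).vs.card ≤ G.vs.card))
      hK le_rfl (singleton_subset_iff.2 hbv) (singleton_nonempty _)
      (FC_single hE hbv (Or.inr hto)) (Subset.refl _)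
    rw [card_singleton, card_erase_of_mem (mem_fv.2 hto)] at h2
    have h3 := h.not_free
    have h4 := h.move3
    have h5 := h.wsC
    omega
  have hs := h.s0.cub.sg
  have hcard : ((G.star b0).erase g0).card = 2 := by rw [card_erase_of_mem hg, hdeg]
  obtain ⟨p, q, hpq, hpq'⟩ := card_eq_two.1 hcard
  have hmem : ∀ e ∈ G.star b0, e ≠ g0 → e = p ∨ e = q := by
    intro e he hne
    have h1 : e ∈ (G.star b0).erase g0 := mem_erase.2 ⟨hne, he⟩
    rw [hpq', mem_insert, mem_singleton] at h1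
    exact h1
  have hp : p ∈ (G.star b0).erase g0 := by rw [hpq']; exact mem_insert_self _ _
  have hq : q ∈ (G.star b0).erase g0 := by
    rw [hpq']; exact mem_insert_of_mem (mem_singleton_self _)
  rw [mem_erase] at hp hq
  have hg2 : G.HasS g0 F2 := by rcases hs with h1 | h1; exacts [Or.inl h1.1, Or.inr h1.2]
  have hg0' : G.HasS g0 F0 := by rcases hs with h1 | h1; exacts [Or.inr h1.2, Or.inl h1.1]
  have hlr : ∀ e ∈ G.star b0, G.l e ≠ G.r e := fun e he => h.p1.lr e (star_sub he)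
  obtain ⟨d, hd, hdg, hd2⟩ := other_edge hG hb hg hg2 (hlr _ hg)
  obtain ⟨d', hd', hdg', hd0⟩ := other_edge hG hb hg hg0' (hlr _ hg)
  have h3 := fun {i a b c : ℕ} (ha : a ∈ G.star b0) (hb' : b ∈ G.star b0) (hc : c ∈ G.star b0)
    (n1 : a ≠ b) (n2 : a ≠ c) (n3 : b ≠ c) (k1 : G.HasS a i) (k2 : G.HasS b i)
    (k3 : G.HasS c i) => h.p1.three hG hb ha hb' hc n1 n2 n3 k1 k2 k3
  -- a third edge
  have hthird : ∀ e ∈ G.star b0, e ≠ g0 → ∃ e' ∈ G.star b0, e' ≠ g0 ∧ e' ≠ e ∧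
      ∀ f ∈ G.star b0, f = g0 ∨ f = e ∨ f = e' := by
    intro e he hne
    rcases hmem e he hne with rfl | rfl
    · exact ⟨q, hq.2, hq.1, hpq.symm, fun f hf => by
        by_cases hfg : f = g0
        · exact Or.inl hfg
        · exact Or.inr (hmem f hf hfg)⟩
    · exact ⟨p, hp.2, hp.1, hpq, fun f hf => by
        by_cases hfg : f = g0
        · exact Or.inl hfg
        · exact Or.inr (hmem f hf hfg).symm⟩
  have hdd : d ≠ d' := by
    rintro rfl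
    obtain ⟨e, he, heg, hed, hall⟩ := hthird d hd hdg
    obtain ⟨f, hf, hfe, hfs⟩ := other_edge hG hb he (Or.inl rfl : G.HasS e (G.l e)) (hlr _ he)
    have hS : ∀ j, G.HasS d j → j = F2 ∨ j = F0 := by
      intro j hj
      have hne : F2 ≠ F0 := h.tri.m20
      have hdl := hlr _ hd
      rcases hd2 with h1 | h1 <;> rcases hd0 with h2 | h2 <;> rcases hj with h4 | h4
      · exact Or.inl (h4.symm.trans h1)
      · exact absurd (h1.symm.trans h2) hne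
      · exact Or.inl (h4.symm.trans h1)
      · exact Or.inr (h4.symm.trans h2)
      · exact Or.inr (h4.symm.trans h2)
      · exact Or.inl (h4.symm.trans h1)
      · exact absurd (h1.symm.trans h2) hne
      · exact Or.inl (h4.symm.trans h1)
    have hj : G.l e = F2 ∨ G.l e = F0 := by
      rcases hall f hf with rfl | rfl | rfl
      · exact hs.side hfs
      · exact hS _ hfs
      · exact absurd rfl hfe
    rcases hj with h1 | h1
    · exact h3 hg hd he hdg.symm heg.symm hed.symm hg2 hd2 (Or.inl h1)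
    · exact h3 hg hd he hdg.symm heg.symm hed.symm hg0' hd0 (Or.inl h1)
  have hstar : G.star b0 = {g0, d, d'} := by
    obtain ⟨e, he, heg, hed, hall⟩ := hthird d hd hdg
    have hed' : d' = e := by
      rcases hall d' hd' with h1 | h1 | h1
      · exact absurd h1 hdg'
      · exact absurd h1.symm hdd
      · exact h1
    ext f
    simp only [mem_insert, mem_singleton]
    constructor
    · intro hf
      rw [hed']
      exact hall f hf
    · rintro (rfl | rfl | rfl)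
      · exact hg
      · exact hd
      · exact hd'
  -- the other side of `d`
  obtain ⟨O, hO, hOF⟩ : ∃ O, G.S d F2 O ∧ O ≠ F2 := by
    rcases hd2 with h1 | h1
    · exact ⟨G.r d, Or.inl ⟨h1, rfl⟩, fun h2 => hlr _ hd (h1.trans h2.symm)⟩
    · exact ⟨G.l d, Or.inr ⟨rfl, h1⟩, fun h2 => hlr _ hd (h2.trans h1.symm)⟩
  have hOd : G.HasS d O := by rcases hO with h1 | h1; exacts [Or.inr h1.2, Or.inl h1.1]
  have hO0 : O ≠ F0 := by
    intro h1
    exact h3 hg hd hd' hdg.symm hdg'.symm hdd hg0' (h1 ▸ hOd) hd0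
  obtain ⟨f, hf, hfd, hfO⟩ := other_edge hG hb hd hOd (hlr _ hd)
  have hfd' : f = d' := by
    rw [hstar] at hf
    simp only [mem_insert, mem_singleton] at hf
    rcases hf with h1 | h1 | h1
    · rw [h1] at hfO
      rcases hs.side hfO with h2 | h2
      · exact absurd h2 hOF
      · exact absurd h2 hO0
    · exact absurd h1 hfd
    · exact h1
  rw [hfd'] at hfO
  have hO' : G.S d' F0 O := by
    rcases hd0 with h1 | h1 <;> rcases hfO with h2 | h2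
    · exact absurd (h2.symm.trans h1) hO0
    · exact Or.inl ⟨h1, h2⟩
    · exact Or.inr ⟨h2, h1⟩
    · exact absurd (h2.symm.trans h1) hO0
  refine ⟨d, d', O, hstar, hdg.symm, hdg'.symm, hdd, hO, hO', ?_, hO0, ?_, hOF⟩
  · rintro rfl
    exact h.s0.nb ⟨d, hd, hOd⟩
  · rintro rfl
    exact ht ⟨d, hd, hOd⟩

end

end Gr

end Pool.Agent.Lib.MP06c549.T6H
end

section
/-!
# MP_06c549_co, T6H/K13, the outer face is a triangle: no common neighbour of the three inner neighbours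
-/
set_option autoImplicit false

namespace Pool.Agent.Lib.MP06c549.T6H

open Finset

namespace Gr

variable {G : Gr}

theorem spec_Q3Cen (m : ℕ) : SpecQ3Cen m := by
  intro G o x0 x1 x2 e0 e1 e2 g0 g1 g2 F0 F1 F2 b0 b1 b2 d0 d0' d1 d1' d2 d2' O0 O1 O2 c p0 p1 p2
    h l0 l1 l2 _ _ _ hp0 hp1 hp2 c0 c1 c2
  have hG := h.mn.cls.good
  have hx := h.ex3 h.n01 h.n12 h.n20
  have hE := (h.mn.cls.del h.FC).good
  have hcC : c ∉ ({x0, x1, x2} : Finset ℕ) := by simp [c0, c1, c2]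
  have hc : c ∈ (G.del {x0, x1, x2} o).vs := mem_sdiff.2 ⟨hp0.symm.memv hG, hcC⟩
  have hF0 : F0 ∈ G.tf {x0, x1, x2} := h.FC' (by simp)
  have hF1 : F1 ∈ G.tf {x0, x1, x2} := h.FC' (by simp)
  have hF2 : F2 ∈ G.tf {x0, x1, x2} := h.FC' (by simp)
  -- one edge
  have key : ∀ b g d d' F F' O p x, G.Leg o F0 F1 F2 b g d d' F F' O → G.E p b c → G.E g x b →
      x ≠ c → b ∉ ({x0, x1, x2} : Finset ℕ) → F ∈ G.tf {x0, x1, x2} →
      F' ∈ G.tf {x0, x1, x2} → p ∈ (G.del {x0, x1, x2} o).star c ∧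
        ((G.del {x0, x1, x2} o).l p = o ∨ (G.del {x0, x1, x2} o).r p = o) := by
    intro b g d d' F F' O p x hl hp hg hxc hb hF hF'
    have h1 : (G.del {x0, x1, x2} o).E p b c := E_del.2 ⟨hp, hb, hcC⟩
    refine ⟨h1.right, ?_⟩
    have h2 := hp.left
    rw [hl.st] at h2
    simp only [mem_insert, mem_singleton] at h2
    rcases h2 with rfl | rfl | rfl
    · exact absurd (hg.symm.other hG hp) hxc
    · exact side_del_u hF (by rcases hl.sd with h3 | h3; exacts [Or.inl h3.1, Or.inr h3.2])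
    · exact side_del_u hF' (by rcases hl.sd' with h3 | h3; exacts [Or.inl h3.1, Or.inr h3.2])
  have k0 := key b0 g0 d0 d0' F2 F0 O0 p0 x0 l0 hp0 h.s0.eb c0.symm (hx.nb 0) hF2 hF0
  have k1 := key b1 g1 d1 d1' F0 F1 O1 p1 x1 l1 hp1 h.s1.eb c1.symm (hx.nb 1) hF0 hF1
  have k2 := key b2 g2 d2 d2' F1 F2 O2 p2 x2 l2 hp2 h.s2.eb c2.symm (hx.nb 2) hF1 hF2
  have hne : ∀ b b' p p', G.E p b c → G.E p' b' c → b ≠ b' → p ≠ p' := by
    rintro b b' p p' h1 h2 hbb rfl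
    exact hbb (h1.symm.other hG h2.symm)
  have n01 := hne b0 b1 p0 p1 hp0 hp1 h.n01
  have n12 := hne b1 b2 p1 p2 hp1 hp2 h.n12
  have n02 := hne b0 b2 p0 p2 hp0 hp2 h.n20.symm
  have h1 := card_le_cnt (G := G.del {x0, x1, x2} o) (v := c) (i := o) (T := {p0, p1, p2}) (by
    intro e he
    simp only [mem_insert, mem_singleton] at he
    rcases he with rfl | rfl | rfl
    · exact k0
    · exact k1
    · exact k2)
  rw [card_insert_of_notMem (by simp [n01, n02]), card_pair n12] at h1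
  have h2 := Gr.cnt_eq_two hE (h.ncv _ hc) ⟨p0, k0⟩
  omega

end Gr

end Pool.Agent.Lib.MP06c549.T6H
end

section
/-!
# MP_06c549_co, T6H/K13: K11, the outer triangle, three different common neighbours

`c0` is a common neighbour of `b0` and `b1`, `c1` of `b1` and `b2`, `c2` of `b2` and `b0`. The face at the
weighted edge `e0` of the outer triangle is bought.
-/
set_option autoImplicit false

namespace Pool.Agent.Lib.MP06c549.T6H

open Finset

namespace Gr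

/-- the configuration -/
structure Hexq (m : ℕ) (G : Gr) (o x0 x1 x2 e0 e1 e2 g0 g1 g2 F0 F1 F2 b0 b1 b2
    d0 d0' d1 d1' d2 d2' O0 O1 O2 c0 c1 c2 p0 q0 p1 q1 p2 q2 : ℕ) : Prop where
  k : Q3b m G o x0 x1 x2 e0 e1 e2 g0 g1 g2 F0 F1 F2 b0 b1 b2
  l0 : G.Leg o F0 F1 F2 b0 g0 d0 d0' F2 F0 O0
  l1 : G.Leg o F0 F1 F2 b1 g1 d1 d1' F0 F1 O1
  l2 : G.Leg o F0 F1 F2 b2 g2 d2 d2' F1 F2 O2
  m0 : ∀ d, ¬ G.E d b0 b1
  m1 : ∀ d, ¬ G.E d b1 b2
  m2 : ∀ d, ¬ G.E d b2 b0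
  ep0 : G.E p0 b0 c0
  eq0 : G.E q0 c0 b1
  ep1 : G.E p1 b1 c1
  eq1 : G.E q1 c1 b2
  ep2 : G.E p2 b2 c2
  eq2 : G.E q2 c2 b0
  x00 : c0 ≠ x0
  x01 : c0 ≠ x1
  x02 : c0 ≠ x2
  x10 : c1 ≠ x0
  x11 : c1 ≠ x1
  x12 : c1 ≠ x2
  x20 : c2 ≠ x0
  x21 : c2 ≠ x1
  x22 : c2 ≠ x2
  c01 : c0 ≠ c1
  c12 : c1 ≠ c2
  c20 : c2 ≠ c0

namespace Hexq

variable {m : ℕ} {G : Gr} {o x0 x1 x2 e0 e1 e2 g0 g1 g2 F0 F1 F2 b0 b1 b2
    d0 d0' d1 d1' d2 d2' O0 O1 O2 c0 c1 c2 p0 q0 p1 q1 p2 q2 : ℕ}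

lemma rot (h : Hexq m G o x0 x1 x2 e0 e1 e2 g0 g1 g2 F0 F1 F2 b0 b1 b2
    d0 d0' d1 d1' d2 d2' O0 O1 O2 c0 c1 c2 p0 q0 p1 q1 p2 q2) :
    Hexq m G o x1 x2 x0 e1 e2 e0 g1 g2 g0 F1 F2 F0 b1 b2 b0
      d1 d1' d2 d2' d0 d0' O1 O2 O0 c1 c2 c0 p1 q1 p2 q2 p0 q0 :=
  ⟨h.k.rot, h.l1.rot, h.l2.rot, h.l0.rot, h.m1, h.m2, h.m0, h.ep1, h.eq1, h.ep2, h.eq2, h.ep0, h.eq0,
    h.x11, h.x12, h.x10, h.x21, h.x22, h.x20, h.x01, h.x02, h.x00, h.c12, h.c20, h.c01⟩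

/-- `b0` is not on the triangle -/
lemma bx (h : Hexq m G o x0 x1 x2 e0 e1 e2 g0 g1 g2 F0 F1 F2 b0 b1 b2
    d0 d0' d1 d1' d2 d2' O0 O1 O2 c0 c1 c2 p0 q0 p1 q1 p2 q2) : b0 ≠ x0 ∧ b0 ≠ x1 ∧ b0 ≠ x2 :=
  ⟨h.k.s0.ne h.k.tri.c0.tO, h.k.s0.ne h.k.tri.c1.tO, h.k.s0.ne h.k.tri.c2.tO⟩

/-- `c0` is not a `b` -/
lemma cb (h : Hexq m G o x0 x1 x2 e0 e1 e2 g0 g1 g2 F0 F1 F2 b0 b1 b2
    d0 d0' d1 d1' d2 d2' O0 O1 O2 c0 c1 c2 p0 q0 p1 q1 p2 q2) : c0 ≠ b0 ∧ c0 ≠ b1 ∧ c0 ≠ b2 := by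
  have hG := h.k.mn.cls.good
  refine ⟨(h.ep0.ne hG).symm, h.eq0.ne hG, ?_⟩
  intro h1
  exact h.m2 p0 (h1 ▸ h.ep0.symm)

lemma not_end {d a b v : ℕ} (hd : G.E d a b) (ha : v ≠ a) (hb : v ≠ b) : d ∉ G.star v := by
  intro h
  rcases hd.ends h with h1 | h1
  · exact ha h1
  · exact hb h1

/-- the edge `c2 b0` is the edge `d0` -/
lemma q2d (h : Hexq m G o x0 x1 x2 e0 e1 e2 g0 g1 g2 F0 F1 F2 b0 b1 b2
    d0 d0' d1 d1' d2 d2' O0 O1 O2 c0 c1 c2 p0 q0 p1 q1 p2 q2) : q2 = d0 := by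
  have hG := h.k.mn.cls.good
  have t := h.k.tri
  obtain ⟨bx00, bx01, bx02⟩ := h.bx
  obtain ⟨bx11, bx12, bx10⟩ := h.rot.bx
  obtain ⟨bx22, bx20, bx21⟩ := h.rot.rot.bx
  obtain ⟨cb00, cb01, cb02⟩ := h.cb
  obtain ⟨cb22, cb20, cb21⟩ := h.rot.rot.cb
  have k0 := h.k.s0.eb
  have k1 := h.k.s1.eb
  have k2 := h.k.s2.eb
  -- the cycle `x0 b0 c0 b1 x1`
  obtain ⟨z, hz⟩ : ∃ z : ℕ → ZMod 2, z = fun d => (if d = e0 then 1 else 0) +
      ((if d = g0 then 1 else 0) + ((if d = p0 then 1 else 0) + ((if d = q0 then 1 else 0) +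
        (if d = g1 then 1 else 0)))) := ⟨_, rfl⟩
  obtain ⟨x, hx⟩ := hG.exact z (by
    intro u _
    rw [hz]
    simp only [sum_add_distrib]
    rw [star_one t.a0 t.n01, star_one k0 bx00.symm, star_one h.ep0 cb00.symm,
      star_one h.eq0 cb01, star_one k1 bx11.symm]
    generalize (if u = x0 then (1 : ZMod 2) else 0) = s1
    generalize (if u = x1 then (1 : ZMod 2) else 0) = s2
    generalize (if u = b0 then (1 : ZMod 2) else 0) = s3
    generalize (if u = b1 then (1 : ZMod 2) else 0) = s4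
    generalize (if u = c0 then (1 : ZMod 2) else 0) = s5
    revert s1 s2 s3 s4 s5
    decide)
  have zero : ∀ d, d ≠ e0 → d ≠ g0 → d ≠ p0 → d ≠ q0 → d ≠ g1 → z d = 0 := by
    intro d h1 h2 h3 h4 h5
    rw [hz]
    simp only [if_neg h1, if_neg h2, if_neg h3, if_neg h4, if_neg h5, add_zero]
  have away : ∀ v, v ≠ x0 → v ≠ x1 → v ≠ b0 → v ≠ b1 → v ≠ c0 → ∀ d ∈ G.star v,
      x (G.l d) = x (G.r d) := by
    intro v h1 h2 h3 h4 h5 d hd
    have h6 := hx d (star_sub hd)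
    rw [zero d (fun h7 => not_end t.a0 h1 h2 (h7 ▸ hd)) (fun h7 => not_end k0 h1 h3 (h7 ▸ hd))
      (fun h7 => not_end h.ep0 h3 h5 (h7 ▸ hd)) (fun h7 => not_end h.eq0 h5 h4 (h7 ▸ hd))
      (fun h7 => not_end k1 h2 h4 (h7 ▸ hd))] at h6
    exact CharTwo.add_eq_zero.1 h6.symm
  -- the values at `o`, `F0`, `F2`
  have v2 : x o = x F2 := by
    have h6 := hx e2 t.a2.mem
    have hd : e2 ∈ G.star x2 := t.a2.left
    have hx2 : ∀ d ∈ G.star x2, x (G.l d) = x (G.r d) :=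
      away x2 t.n20 t.n12.symm bx02.symm bx12.symm h.x02.symm
    have h7 := hx2 e2 hd
    rcases t.c0.se with ⟨h8, h9⟩ | ⟨h8, h9⟩
    · rw [h8, h9] at h7; exact h7
    · rw [h8, h9] at h7; exact h7.symm
  have v0 : x o ≠ x F0 := by
    have h6 := hx e0 t.a0.mem
    have n1 : e0 ≠ g0 := t.c0.n3.symm
    have n2 : e0 ≠ g1 := t.c1.n1
    have n3 : e0 ≠ p0 := fun h7 => not_end h.ep0 bx00.symm h.x00.symm (h7 ▸ t.a0.left)
    have n4 : e0 ≠ q0 := fun h7 => not_end h.eq0 h.x00.symm bx10.symm (h7 ▸ t.a0.left)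
    rw [hz] at h6
    simp only [if_true, if_neg n1, if_neg n2, if_neg n3, if_neg n4, add_zero] at h6
    intro h7
    rcases t.c1.se with ⟨h8, h9⟩ | ⟨h8, h9⟩
    · rw [h8, h9, h7, CharTwo.add_self_eq_zero] at h6; exact one_ne_zero h6
    · rw [h8, h9, h7, CharTwo.add_self_eq_zero] at h6; exact one_ne_zero h6
  have hb2 := away b2 bx20 bx21 h.k.n20 h.k.n12.symm cb02.symm
  have hc2 := away c2 h.x20 h.x21 cb20 cb21 h.c20
  have w1 : x (G.l p2) = x F2 := link' hG (h.ep2.memv hG) hb2 ⟨p2, h.ep2.left, Or.inl rfl⟩ h.k.s2.bF'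
  have w2 : ∀ i, G.Touch c2 i → x i = x F2 := by
    intro i hi
    rw [← w1]
    exact link' hG (h.ep2.symm.memv hG) hc2 hi ⟨p2, h.ep2.right, Or.inl rfl⟩
  have hq := h.eq2.right
  rw [h.l0.st] at hq
  simp only [mem_insert, mem_singleton] at hq
  rcases hq with h1 | h1 | h1
  · exfalso
    have h2 := h.eq2.left
    rw [h1] at h2
    exact not_end k0 h.x20 cb20 h2
  · exact h1
  · exfalso
    have h2 : G.Touch c2 F0 := by
      have h3 := h.l0.sd'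
      rw [← h1] at h3
      exact (h3.touch h.eq2.left).1
    exact v0 (v2.trans (w2 F0 h2).symm)

/-- the edge `b0 c0` is the edge `d0'` -/
lemma p0d (h : Hexq m G o x0 x1 x2 e0 e1 e2 g0 g1 g2 F0 F1 F2 b0 b1 b2
    d0 d0' d1 d1' d2 d2' O0 O1 O2 c0 c1 c2 p0 q0 p1 q1 p2 q2) : p0 = d0' := by
  have hp := h.ep0.left
  rw [h.l0.st] at hp
  simp only [mem_insert, mem_singleton] at hp
  rcases hp with h1 | h1 | h1
  · exfalso
    have h2 := h.ep0.right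
    rw [h1] at h2
    exact not_end h.k.s0.eb h.x00 h.cb.1 h2
  · exfalso
    have h2 := h.eq2.left
    rw [h.q2d, ← h1] at h2
    exact not_end h.ep0 h.rot.rot.cb.2.1 h.c20 h2
  · exact h1

/-- the edges at `b0` -/
lemma stb (h : Hexq m G o x0 x1 x2 e0 e1 e2 g0 g1 g2 F0 F1 F2 b0 b1 b2
    d0 d0' d1 d1' d2 d2' O0 O1 O2 c0 c1 c2 p0 q0 p1 q1 p2 q2) : G.star b0 = {g0, q2, p0} := by
  rw [h.q2d, h.p0d]
  exact h.l0.st

/-- the numbers -/
lemma _root_.Pool.Agent.Lib.MP06c549.T6H.fin11q {w ws0 ws1 f W B X : ℕ} (h1 : ws1 = w) (h0 : ws0 = 0)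
    (hf : f ≤ 3 * 1) (hw : 1 ≤ w) (hW : W = 8) (hB : B = 4) (hX : X = 3)
    (h : 7 * W + 2 * B + (2 * 7 - 13) * ws0 + 2 * 7 * ws1 < 13 * (X + f)) : False := by
  subst h1 h0 hW hB hX
  omega

/-- **the configuration does not occur** -/
theorem false (h : Hexq m G o x0 x1 x2 e0 e1 e2 g0 g1 g2 F0 F1 F2 b0 b1 b2
    d0 d0' d1 d1' d2 d2' O0 O1 O2 c0 c1 c2 p0 q0 p1 q1 p2 q2) (hw : 1 ≤ G.w e0) : False := by
  have hG := h.k.mn
  have hgood := hG.cls.good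
  have hF := h.k.u0
  have t := h.k.tri
  have k0 := h.k.s0.eb
  have k1 := h.k.s1.eb
  have k2 := h.k.s2.eb
  have hb0 : b0 ∈ G.vs := k0.symm.memv hgood
  have hb1 : b1 ∈ G.vs := k1.symm.memv hgood
  have hb2 : b2 ∈ G.vs := k2.symm.memv hgood
  have hc1 : c1 ∈ G.vs := h.ep1.symm.memv hgood
  have hc2 : c2 ∈ G.vs := h.ep2.symm.memv hgood
  have hx0 : x0 ∈ G.vs := k0.memv hgood
  have hx1 : x1 ∈ G.vs := k1.memv hgood
  have hx2 : x2 ∈ G.vs := k2.memv hgood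
  have bx0 := h.bx
  obtain ⟨bx11, bx12, bx10⟩ := h.rot.bx
  obtain ⟨bx22, bx20, bx21⟩ := h.rot.rot.bx
  obtain ⟨cb11, cb12, cb10⟩ := h.rot.cb
  obtain ⟨cb22, cb20, cb21⟩ := h.rot.rot.cb
  have cc12 := h.c12
  have sa0 : G.S p0 F0 O0 := by rw [h.p0d]; exact h.l0.sd'
  have sq0 : G.S q0 F0 O1 := by rw [h.rot.q2d]; exact h.l1.sd
  obtain ⟨W, hWdef⟩ : ∃ W : Finset ℕ, W = insert c1 (insert c2 (insert b0 (insert b1
    (insert b2 {x0, x1, x2})))) := ⟨_, rfl⟩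
  have hmem : ∀ v, v ∈ W ↔ v = c1 ∨ v = c2 ∨ v = b0 ∨ v = b1 ∨ v = b2 ∨ v = x0 ∨ v = x1 ∨
      v = x2 := by
    intro v
    rw [hWdef]
    simp only [mem_insert, mem_singleton]
  have hWv : W ⊆ G.vs := by
    intro v hv
    rw [hmem] at hv
    rcases hv with rfl | rfl | rfl | rfl | rfl | rfl | rfl | rfl <;> assumption
  have hc : W.card = 8 := by
    rw [hWdef, card_insert_of_notMem, card_insert_of_notMem, card_insert_of_notMem,
      card_insert_of_notMem, card_insert_of_notMem, card_insert_of_notMem, card_pair t.n12]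
    · simp only [mem_insert, mem_singleton, not_or]
      exact ⟨t.n01, t.n20.symm⟩
    · simp only [mem_insert, mem_singleton, not_or]
      exact ⟨bx20, bx21, bx22⟩
    · simp only [mem_insert, mem_singleton, not_or]
      exact ⟨h.k.n12, bx10, bx11, bx12⟩
    · simp only [mem_insert, mem_singleton, not_or]
      exact ⟨h.k.n01, h.k.n20.symm, bx0⟩
    · simp only [mem_insert, mem_singleton, not_or]
      exact ⟨cb20, cb21, cb22, h.x20, h.x21, h.x22⟩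
    · simp only [mem_insert, mem_singleton, not_or]
      exact ⟨cc12, cb10, cb11, cb12, h.x10, h.x11, h.x12⟩
  have hFC : G.FC W o := by
    rw [hWdef]
    have f0 : G.FC {x0, x1, x2} o :=
      FC_insert hgood (FC_insert hgood (FC_single hgood hx2 (Or.inr t.c2.tO))
        hx1 (Or.inr (Or.inl t.c1.tO))) hx0
        (Or.inr (Or.inl t.c0.tO))
    have f1 : G.FC (insert b2 {x0, x1, x2}) o :=
      FC_insert hgood f0 hb2 (Or.inr (Or.inr ⟨g2, k2.right, star_sub_tds (by simp) k2.left⟩))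
    have f2 : G.FC (insert b1 (insert b2 {x0, x1, x2})) o :=
      FC_insert hgood f1 hb1 (Or.inr (Or.inr ⟨g1, k1.right,
        star_sub_tds (v := x1) (by simp) k1.left⟩))
    have f3 : G.FC (insert b0 (insert b1 (insert b2 {x0, x1, x2}))) o :=
      FC_insert hgood f2 hb0 (Or.inr (Or.inr ⟨g0, k0.right,
        star_sub_tds (v := x0) (by simp) k0.left⟩))
    have f4 : G.FC (insert c2 (insert b0 (insert b1 (insert b2 {x0, x1, x2})))) o :=
      FC_insert hgood f3 hc2 (Or.inr (Or.inr ⟨p2, h.ep2.right,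
        star_sub_tds (v := b2) (by simp) h.ep2.left⟩))
    exact FC_insert hgood f4 hc1 (Or.inr (Or.inr ⟨p1, h.ep1.right,
      star_sub_tds (v := b1) (by simp) h.ep1.left⟩))
  -- covered edges
  have kE : ∀ {d v w : ℕ}, G.E d v w → v ∈ ({x2, c1, c2} : Finset ℕ) →
      G.p d ∈ ({x2, c1, c2} : Finset ℕ) ∨ G.q d ∈ ({x2, c1, c2} : Finset ℕ) ∨
        G.l d ∈ ({F0} : Finset ℕ) ∨ G.r d ∈ ({F0} : Finset ℕ) := by
    intro d v w h1 h2
    rcases h1.2 with h3 | h3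
    · left; rw [h3.1]; exact h2
    · right; left; rw [h3.2]; exact h2
  have kS : ∀ {d i : ℕ}, G.S d F0 i → G.p d ∈ ({x2, c1, c2} : Finset ℕ) ∨
      G.q d ∈ ({x2, c1, c2} : Finset ℕ) ∨ G.l d ∈ ({F0} : Finset ℕ) ∨
        G.r d ∈ ({F0} : Finset ℕ) := by
    intro d i h1
    rcases h1 with h3 | h3
    · right; right; left; rw [h3.1]; simp
    · right; right; right; rw [h3.2]; simp
  have ke0 := kS t.c1.se.symm
  have ke1 := kE t.a1.symm (by simp)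
  have ke2 := kE t.a2 (by simp)
  have kg0 := kS t.c0.sg.symm
  have kg1 := kS t.c1.sg
  have kg2 := kE k2 (by simp)
  have ka0 := kS sa0
  have kq0 := kS sq0
  have ka1 := kE h.ep1.symm (by simp)
  have kq1 := kE h.eq1 (by simp)
  have ka2 := kE h.ep2.symm (by simp)
  have kq2 := kE h.eq2 (by simp)
  have st0 := h.stb
  have st1 := h.rot.stb
  have st2 := h.rot.rot.stb
  have hcov : ∀ d ∈ G.tds W, G.p d ∈ ({x2, c1, c2} : Finset ℕ) ∨
      G.q d ∈ ({x2, c1, c2} : Finset ℕ) ∨ G.l d ∈ ({F0} : Finset ℕ) ∨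
        G.r d ∈ ({F0} : Finset ℕ) := by
    intro d hd
    have h1 : ∃ v ∈ W, d ∈ G.star v := by
      rw [mem_tds] at hd
      rcases hd.2 with h2 | h2
      · exact ⟨_, h2, mem_star.2 ⟨hd.1, Or.inl rfl⟩⟩
      · exact ⟨_, h2, mem_star.2 ⟨hd.1, Or.inr rfl⟩⟩
    obtain ⟨v, hv, hdv⟩ := h1
    obtain ⟨w, hw⟩ := exists_E hdv
    rw [hmem] at hv
    rcases hv with rfl | rfl | rfl | rfl | rfl | rfl | rfl | rfl
    · exact kE hw (by simp)
    · exact kE hw (by simp)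
    · rw [st0] at hdv
      simp only [mem_insert, mem_singleton] at hdv
      rcases hdv with rfl | rfl | rfl <;> assumption
    · rw [st1] at hdv
      simp only [mem_insert, mem_singleton] at hdv
      rcases hdv with rfl | rfl | rfl <;> assumption
    · rw [st2] at hdv
      simp only [mem_insert, mem_singleton] at hdv
      rcases hdv with rfl | rfl | rfl <;> assumption
    · rcases (by rw [t.c0.st] at hdv; simpa only [mem_insert, mem_singleton] using hdv : d = e2 ∨ d = g0 ∨ d = e0) with rfl | rfl | rfl <;> assumption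
    · rcases (by rw [t.c1.st] at hdv; simpa only [mem_insert, mem_singleton] using hdv : d = e0 ∨ d = g1 ∨ d = e1) with rfl | rfl | rfl <;> assumption
    · exact kE hw (by simp)
  have me0 : e0 ∈ G.tds W := star_sub_tds ((hmem x0).2 (by simp)) t.a0.left
  have me1 : e1 ∈ G.tds W := star_sub_tds ((hmem x1).2 (by simp)) t.a1.left
  have me2 : e2 ∈ G.tds W := star_sub_tds ((hmem x2).2 (by simp)) t.a2.left
  have ma0 : p0 ∈ G.tds W := star_sub_tds ((hmem b0).2 (by simp)) h.ep0.left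
  have tf_of : ∀ {d i F : ℕ}, d ∈ G.tds W → G.S d i F → F ∈ G.tf W := by
    intro d i F h1 h2
    rcases h2 with h3 | h3
    · rw [← h3.2]; exact r_mem_tf h1
    · rw [← h3.1]; exact l_mem_tf h1
  have f0 : F0 ∈ G.tf W := tf_of me0 t.c1.se
  have f1 : F1 ∈ G.tf W := tf_of me1 t.c2.se
  have f2 : F2 ∈ G.tf W := tf_of me2 t.c0.se
  have fO : O0 ∈ G.tf W := tf_of ma0 sa0
  have hmv := hG.toCx0.move_w (by norm_num) (by norm_num) (W := W) (X₀ := {x2, c1, c2})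
    (Y₀ := {F0}) (B := {F0, F1, F2, O0}) (D := ∅) (D' := {e0}) hWv ⟨x0, (hmem x0).2 (by simp)⟩ hFC
    (by
      intro v hv
      simp only [mem_insert, mem_singleton] at hv
      rcases hv with rfl | rfl | rfl <;> assumption)
    (singleton_subset_iff.2 (mem_sdiff.2 ⟨tf_sub hgood f0, hF⟩))
    (by
      intro i hi
      simp only [mem_insert, mem_singleton] at hi
      rw [mem_erase]
      rcases hi with rfl | rfl | rfl | rfl
      · exact ⟨t.c0.f2, f0⟩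
      · exact ⟨t.c1.f2, f1⟩
      · exact ⟨t.c2.f2, f2⟩
      · exact ⟨h.l0.o1, fO⟩)
    hcov (empty_subset _) (singleton_subset_iff.2 me0) (disjoint_empty_left _)
    (by
      intro d hd
      rw [mem_singleton] at hd
      rw [hd]
      rcases t.c1.se with h1 | h1
      · exact Or.inr (by rw [h1.2]; simp)
      · exact Or.inl (by rw [h1.1]; simp))
  have hB4 : ({F0, F1, F2, O0} : Finset ℕ).card = 4 := by
    rw [card_insert_of_notMem, card_insert_of_notMem, card_pair (Ne.symm h.l0.o4)]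
    · simp only [mem_insert, mem_singleton, not_or]
      exact ⟨t.m12, Ne.symm h.l0.o3⟩
    · simp only [mem_insert, mem_singleton, not_or]
      exact ⟨t.m01, t.m20.symm, Ne.symm h.l0.o2⟩
  have hX3 : ({x2, c1, c2} : Finset ℕ).card = 3 := by
    rw [card_insert_of_notMem, card_pair cc12]
    simp only [mem_insert, mem_singleton, not_or]
    exact ⟨Ne.symm h.x12, Ne.symm h.x22⟩
  exact fin11q (by rw [ws, sum_singleton]) (by rw [ws, sum_empty]) (by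
    have := G.fpr_le (Y := {F0})
    rwa [card_singleton] at this) hw hc hB4 hX3 hmv

end Hexq

/-- K11 -/
theorem spec_Q3Hex (m : ℕ) : SpecQ3Hex m := by
  intro G o x0 x1 x2 e0 e1 e2 g0 g1 g2 F0 F1 F2 b0 b1 b2 d0 d0' d1 d1' d2 d2' O0 O1 O2 c0 c1 c2 p0 q0
    p1 q1 p2 q2 hk l0 l1 l2 m0 m1 m2 ep0 eq0 ep1 eq1 ep2 eq2 x00 x01 x02 x10 x11 x12 x20 x21 x22
    c01 c12 c20
  have h : Hexq m G o x0 x1 x2 e0 e1 e2 g0 g1 g2 F0 F1 F2 b0 b1 b2 d0 d0' d1 d1' d2 d2' O0 O1 O2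
      c0 c1 c2 p0 q0 p1 q1 p2 q2 := ⟨hk, l0, l1, l2, m0, m1, m2, ep0, eq0, ep1, eq1, ep2, eq2, x00,
    x01, x02, x10, x11, x12, x20, x21, x22, c01, c12, c20⟩
  have hw := hk.wt
  by_cases h0 : 1 ≤ G.w e0
  · exact h.false h0
  · by_cases h1 : 1 ≤ G.w e1
    · exact h.rot.false h1
    · exact h.rot.rot.false (by omega)

end Gr

end Pool.Agent.Lib.MP06c549.T6H
end

section
/-!
# MP_06c549_co, T6H/K13: the outer face is a triangle: basic facts, `spec_Q3Touch`, `spec_Q3Leg`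
-/
set_option autoImplicit false

namespace Pool.Agent.Lib.MP06c549.T6H

open Finset

namespace Gr

namespace Q3

variable {m : ℕ} {G : Gr} {o x0 x1 x2 e0 e1 e2 g0 g1 g2 F0 F1 F2 b0 b1 b2 : ℕ}

lemma endm {d a b : ℕ} {X Y : Finset ℕ} (h : G.E d a b) (hb : b ∈ X) :
    G.p d ∈ X ∨ G.q d ∈ X ∨ G.l d ∈ Y ∨ G.r d ∈ Y := by
  rcases h.2 with h1 | h1
  · right; left; rw [h1.2]; exact hb
  · left; rw [h1.1]; exact hb

/-- a cover of the edges at `W` is checked at the vertices of `W` outside `X` -/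
lemma cover_of {W X Y : Finset ℕ}
    (h : ∀ v ∈ W, v ∉ X → ∀ d ∈ G.star v, G.p d ∈ X ∨ G.q d ∈ X ∨ G.l d ∈ Y ∨ G.r d ∈ Y) :
    ∀ d ∈ G.tds W, G.p d ∈ X ∨ G.q d ∈ X ∨ G.l d ∈ Y ∨ G.r d ∈ Y := by
  intro d hd
  rw [mem_tds] at hd
  have key : ∀ v ∈ W, d ∈ G.star v → G.p d ∈ X ∨ G.q d ∈ X ∨ G.l d ∈ Y ∨ G.r d ∈ Y := by
    intro v hv hdv
    by_cases hvX : v ∈ X
    · rcases (mem_star.1 hdv).2 with h1 | h1
      · left; rw [h1]; exact hvX
      · right; left; rw [h1]; exact hvX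
    · exact h v hv hvX d hdv
  rcases hd.2 with h1 | h1
  · exact key _ h1 (mem_star.2 ⟨hd.1, Or.inl rfl⟩)
  · exact key _ h1 (mem_star.2 ⟨hd.1, Or.inr rfl⟩)

lemma good (h : Q3 m G o x0 x1 x2 e0 e1 e2 g0 g1 g2 F0 F1 F2 b0 b1 b2) : G.Good := h.mn.cls.good

lemma x0v (h : Q3 m G o x0 x1 x2 e0 e1 e2 g0 g1 g2 F0 F1 F2 b0 b1 b2) : x0 ∈ G.vs :=
  h.s0.cub.mv h.good

lemma x1v (h : Q3 m G o x0 x1 x2 e0 e1 e2 g0 g1 g2 F0 F1 F2 b0 b1 b2) : x1 ∈ G.vs :=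
  h.s1.cub.mv h.good

lemma x2v (h : Q3 m G o x0 x1 x2 e0 e1 e2 g0 g1 g2 F0 F1 F2 b0 b1 b2) : x2 ∈ G.vs :=
  h.s2.cub.mv h.good

lemma b0v (h : Q3 m G o x0 x1 x2 e0 e1 e2 g0 g1 g2 F0 F1 F2 b0 b1 b2) : b0 ∈ G.vs :=
  (touch_mem h.good h.s0.bF).1

lemma b1v (h : Q3 m G o x0 x1 x2 e0 e1 e2 g0 g1 g2 F0 F1 F2 b0 b1 b2) : b1 ∈ G.vs := h.rot.b0v

lemma b2v (h : Q3 m G o x0 x1 x2 e0 e1 e2 g0 g1 g2 F0 F1 F2 b0 b1 b2) : b2 ∈ G.vs := h.rot.rot.b0v

lemma sub (h : Q3 m G o x0 x1 x2 e0 e1 e2 g0 g1 g2 F0 F1 F2 b0 b1 b2) :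
    {x0, x1, x2} ⊆ G.vs := by
  intro v hv
  simp only [mem_insert, mem_singleton] at hv
  rcases hv with rfl | rfl | rfl
  · exact h.x0v
  · exact h.x1v
  · exact h.x2v

lemma cardW (h : Q3 m G o x0 x1 x2 e0 e1 e2 g0 g1 g2 F0 F1 F2 b0 b1 b2) :
    ({x0, x1, x2} : Finset ℕ).card = 3 := by
  have t := h.tri
  rw [card_insert_of_notMem (by simp [t.n01, t.n20.symm]), card_pair t.n12]

lemma cardF (h : Q3 m G o x0 x1 x2 e0 e1 e2 g0 g1 g2 F0 F1 F2 b0 b1 b2) :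
    ({F0, F1, F2} : Finset ℕ).card = 3 := by
  have t := h.tri
  rw [card_insert_of_notMem (by simp [t.m01, t.m20.symm]), card_pair t.m12]

lemma fc (h : Q3 m G o x0 x1 x2 e0 e1 e2 g0 g1 g2 F0 F1 F2 b0 b1 b2) :
    G.FC {x0, x1, x2} o := by
  have h2 := FC_single h.good h.x2v (Or.inr h.s2.cub.tO)
  have h1 := FC_insert h.good h2 h.x1v (Or.inr (Or.inl h.s1.cub.tO))
  exact FC_insert h.good h1 h.x0v (Or.inr (Or.inl h.s0.cub.tO))

lemma mem_tdsW (h : Q3 m G o x0 x1 x2 e0 e1 e2 g0 g1 g2 F0 F1 F2 b0 b1 b2) {d : ℕ} :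
    d ∈ G.tds {x0, x1, x2} ↔ d = e0 ∨ d = e1 ∨ d = e2 ∨ d = g0 ∨ d = g1 ∨ d = g2 := by
  constructor
  · intro hd
    have key : d ∈ G.star x0 ∨ d ∈ G.star x1 ∨ d ∈ G.star x2 := by
      rw [mem_tds] at hd
      simp only [mem_insert, mem_singleton] at hd
      rcases hd.2 with (h1 | h1 | h1) | (h1 | h1 | h1)
      · exact Or.inl (mem_star.2 ⟨hd.1, Or.inl h1⟩)
      · exact Or.inr (Or.inl (mem_star.2 ⟨hd.1, Or.inl h1⟩))
      · exact Or.inr (Or.inr (mem_star.2 ⟨hd.1, Or.inl h1⟩))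
      · exact Or.inl (mem_star.2 ⟨hd.1, Or.inr h1⟩)
      · exact Or.inr (Or.inl (mem_star.2 ⟨hd.1, Or.inr h1⟩))
      · exact Or.inr (Or.inr (mem_star.2 ⟨hd.1, Or.inr h1⟩))
    rw [h.s0.cub.st, h.s1.cub.st, h.s2.cub.st] at key
    simp only [mem_insert, mem_singleton] at key
    tauto
  · intro hd
    have k0 : ∀ d ∈ G.star x0, d ∈ G.tds {x0, x1, x2} := star_sub_tds (by simp)
    have k1 : ∀ d ∈ G.star x1, d ∈ G.tds {x0, x1, x2} := star_sub_tds (by simp)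
    have k2 : ∀ d ∈ G.star x2, d ∈ G.tds {x0, x1, x2} := star_sub_tds (by simp)
    rcases hd with rfl | rfl | rfl | rfl | rfl | rfl
    · exact k0 _ h.s0.cub.me'
    · exact k1 _ h.s1.cub.me'
    · exact k2 _ h.s2.cub.me'
    · exact k0 _ h.s0.cub.mg
    · exact k1 _ h.s1.cub.mg
    · exact k2 _ h.s2.cub.mg

lemma mem_tfW (h : Q3 m G o x0 x1 x2 e0 e1 e2 g0 g1 g2 F0 F1 F2 b0 b1 b2) {i : ℕ} :
    i ∈ G.tf {x0, x1, x2} ↔ i = o ∨ i = F0 ∨ i = F1 ∨ i = F2 := by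
  have s0 := h.s0.cub
  have s1 := h.s1.cub
  have s2 := h.s2.cub
  constructor
  · intro hi
    obtain ⟨d, hd, hdi⟩ := mem_tf.1 hi
    rw [h.mem_tdsW] at hd
    rcases hd with rfl | rfl | rfl | rfl | rfl | rfl
    · rcases s0.se'.side hdi with h1 | h1 <;> simp [h1]
    · rcases s1.se'.side hdi with h1 | h1 <;> simp [h1]
    · rcases s2.se'.side hdi with h1 | h1 <;> simp [h1]
    · rcases s0.sg.side hdi with h1 | h1 <;> simp [h1]
    · rcases s1.sg.side hdi with h1 | h1 <;> simp [h1]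
    · rcases s2.sg.side hdi with h1 | h1 <;> simp [h1]
  · have k : ∀ {v i : ℕ}, v ∈ ({x0, x1, x2} : Finset ℕ) → G.Touch v i →
        i ∈ G.tf {x0, x1, x2} := by
      intro v i hv ht
      obtain ⟨d, hd, hdi⟩ := ht
      exact mem_tf.2 ⟨d, star_sub_tds hv hd, hdi⟩
    rintro (rfl | rfl | rfl | rfl)
    · exact k (by simp) s0.tO
    · exact k (v := x0) (by simp) s0.tF'
    · exact k (v := x1) (by simp) s1.tF'
    · exact k (v := x2) (by simp) s2.tF'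

lemma subF (h : Q3 m G o x0 x1 x2 e0 e1 e2 g0 g1 g2 F0 F1 F2 b0 b1 b2) :
    {F0, F1, F2} ⊆ (G.tf {x0, x1, x2}).erase o := by
  intro i hi
  simp only [mem_insert, mem_singleton] at hi
  refine mem_erase.2 ⟨?_, h.mem_tfW.2 (Or.inr hi)⟩
  rcases hi with rfl | rfl | rfl
  · exact h.s0.cub.f2
  · exact h.s1.cub.f2
  · exact h.s2.cub.f2

lemma wsW (h : Q3 m G o x0 x1 x2 e0 e1 e2 g0 g1 g2 F0 F1 F2 b0 b1 b2) :
    1 ≤ G.ws (G.tds {x0, x1, x2}) := by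
  have h1 : G.ws {e0, e1, e2} ≤ G.ws (G.tds {x0, x1, x2}) := by
    refine ws_mono fun d hd => ?_
    simp only [mem_insert, mem_singleton] at hd
    rw [h.mem_tdsW]
    tauto
  have h2 : G.ws {e0, e1, e2} = G.w e0 + (G.w e1 + G.w e2) := by
    unfold ws
    rw [sum_insert, sum_pair]
    · exact h.s2.cub.n2
    · simp only [mem_insert, mem_singleton, not_or]
      exact ⟨h.s1.cub.n2, h.s0.cub.n2.symm⟩
  have := h.wt
  omega

lemma bx (h : Q3 m G o x0 x1 x2 e0 e1 e2 g0 g1 g2 F0 F1 F2 b0 b1 b2) :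
    b0 ∉ ({x0, x1, x2} : Finset ℕ) := by
  simp only [mem_insert, mem_singleton, not_or]
  exact ⟨h.s0.ne h.s0.cub.tO, h.s0.ne h.s1.cub.tO, h.s0.ne h.s2.cub.tO⟩

lemma clsE (h : Q3 m G o x0 x1 x2 e0 e1 e2 g0 g1 g2 F0 F1 F2 b0 b1 b2) :
    (G.del {x0, x1, x2} o).Cls o m := h.mn.cls.del h.fc

lemma vsE (h : Q3 m G o x0 x1 x2 e0 e1 e2 g0 g1 g2 F0 F1 F2 b0 b1 b2) :
    (G.del {x0, x1, x2} o).vs.card + 3 = G.vs.card := by
  have := del_card (u := o) h.sub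
  rw [h.cardW] at this
  exact this

lemma ihE (h : Q3 m G o x0 x1 x2 e0 e1 e2 g0 g1 g2 F0 F1 F2 b0 b1 b2) :
    13 * (G.del {x0, x1, x2} o).tau ≤ (G.del {x0, x1, x2} o).pot 7 2 4 := by
  have := h.vsE
  exact h.mn.ih o _ h.clsE (by omega)

/-- K1: `b0` is in no optimal cover of `G - {x0, x1, x2}` -/
lemma notfree (h : Q3 m G o x0 x1 x2 e0 e1 e2 g0 g1 g2 F0 F1 F2 b0 b1 b2) :
    (G.del {x0, x1, x2} o).tau < (G.del {x0, x1, x2} o).cost {b0} := by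
  have t := h.tri
  have h1 := h.mn.toCx0.move_T (by norm_num) (W := {x0, x1, x2}) (T := {b0}) (X₀ := {x1, x2})
    (Y₀ := ∅) (B := {F0, F1, F2}) h.sub h.fc
    (singleton_subset_iff.2 (mem_sdiff.2 ⟨h.b0v, h.bx⟩))
    (fun v hv => h.sub (mem_insert_of_mem hv)) (empty_subset _) h.subF
    (cover_of (by
      intro v hv hvX d hd
      have hv0 : v = x0 := by
        simp only [mem_insert, mem_singleton, mem_union, not_or] at hv hvX
        tauto
      subst hv0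
      rw [h.s0.cub.st] at hd
      simp only [mem_insert, mem_singleton] at hd
      rcases hd with rfl | rfl | rfl
      · exact endm t.a2.symm (by simp)
      · exact endm h.s0.eb (by simp)
      · exact endm t.a0 (by simp)))
  rw [h.cardW, h.cardF, card_pair t.n12, fpr_empty, nb_empty] at h1
  have h2 := h.ihE
  by_contra hcon
  push Not at hcon
  have h3 := tau_le_cost (G := G.del {x0, x1, x2} o) h.clsE.good (T := {b0})
    (singleton_subset_iff.2 (mem_sdiff.2 ⟨h.b0v, h.bx⟩))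
  omega

/-- K2: the bound from the cover with all three outer vertices -/
lemma bound (h : Q3 m G o x0 x1 x2 e0 e1 e2 g0 g1 g2 F0 F1 F2 b0 b1 b2) :
    (G.del {x0, x1, x2} o).pot 7 2 4 + G.ws (G.tds {x0, x1, x2}) <
      13 * (G.del {x0, x1, x2} o).tau + 12 := by
  have h1 := h.mn.toCx0.move_T (by norm_num) (W := {x0, x1, x2}) (T := ∅) (X₀ := {x0, x1, x2})
    (Y₀ := ∅) (B := {F0, F1, F2}) h.sub h.fc (empty_subset _) h.sub (empty_subset _) h.subF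
    (cover_of (by
      intro v hv hvX
      exact absurd (mem_union_left _ hv) hvX))
  rw [h.cardW, h.cardF, fpr_empty, nb_empty] at h1
  unfold tau
  omega

/-- a vertex outside the triangle touching one of `F0 F1 F2` touches `o` after the deletion, so it can
be deleted -/
lemma fcE (h : Q3 m G o x0 x1 x2 e0 e1 e2 g0 g1 g2 F0 F1 F2 b0 b1 b2) :
    (G.del {x0, x1, x2} o).FC {b0} o := by
  refine FC_single h.clsE.good (mem_sdiff.2 ⟨h.b0v, h.bx⟩) ?_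
  by_cases h1 : (G.del {x0, x1, x2} o).star b0 = ∅
  · exact Or.inl h1
  · right
    obtain ⟨d, hd⟩ := nonempty_iff_ne_empty.2 h1
    by_contra hcon
    -- all faces at `b0` in `G` are equal to `F0`
    have hd' := hd
    rw [star_del] at hd'
    obtain ⟨hds, hdt⟩ := mem_sdiff.1 hd'
    have key := h.good.link b0 h.b0v (fun i => if i ∈ insert o (G.tf {x0, x1, x2}) then 1 else 0)
      (by
        intro e he
        by_cases heW : e ∈ G.tds {x0, x1, x2}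
        · simp only [if_pos (mem_insert_of_mem (l_mem_tf heW)),
            if_pos (mem_insert_of_mem (r_mem_tf heW))]
        · have hm : e ∈ (G.del {x0, x1, x2} o).star b0 := by
            rw [star_del]; exact mem_sdiff.2 ⟨he, heW⟩
          have hn : ∀ i, (G.del {x0, x1, x2} o).Touch b0 (G.phi {x0, x1, x2} o i) →
              i ∉ insert o (G.tf {x0, x1, x2}) := by
            intro i hi hio
            apply hcon
            have : G.phi {x0, x1, x2} o i = o := by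
              rcases mem_insert.1 hio with h2 | h2
              · rw [h2]; exact phi_u
              · exact phi_of_mem h2
            rwa [this] at hi
          rw [if_neg (hn _ ⟨e, hm, Or.inl rfl⟩), if_neg (hn _ ⟨e, hm, Or.inr rfl⟩)])
      d hds g0 h.s0.eb.right
    have hg : G.l g0 ∈ insert o (G.tf {x0, x1, x2}) :=
      mem_insert_of_mem (l_mem_tf (h.mem_tdsW.2 (by tauto)))
    have hdl : G.l d ∉ insert o (G.tf {x0, x1, x2}) := by
      intro hio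
      apply hcon
      refine ⟨d, hd, Or.inl ?_⟩
      change G.phi {x0, x1, x2} o (G.l d) = o
      rcases mem_insert.1 hio with h2 | h2
      · rw [h2]; exact phi_u
      · exact phi_of_mem h2
    simp only [if_pos hg, if_neg hdl] at key
    exact absurd key (by decide)

end Q3

theorem spec_Q3Touch (m : ℕ) : SpecQ3Touch m := by
  intro G o x0 x1 x2 e0 e1 e2 g0 g1 g2 F0 F1 F2 b0 b1 b2 h hne ht ht'
  have t := h.tri
  have h1 := spec_enc o G h.good h.p1 g1 x1 b1 F0 F1 b0 h.s1.eb h.s1.cub.sg t.m01 h.s1.cub.f1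
    h.s1.cub.f2 h.s0.bF' ht h.s0.nb hne h.s1.cub.tO F2 ht' t.m20 t.m12.symm
  exact h1.2 e2 (star_sub h.s2.cub.me') h.s2.cub.se'

/-- at most one further face at `b0` -/
lemma Q3.two_faces {m : ℕ} {G : Gr} {o x0 x1 x2 e0 e1 e2 g0 g1 g2 F0 F1 F2 b0 b1 b2 : ℕ}
    (h : Q3 m G o x0 x1 x2 e0 e1 e2 g0 g1 g2 F0 F1 F2 b0 b1 b2) {B : Finset ℕ}
    (hB : ∀ i ∈ B, G.Touch b0 i ∧ i ≠ F0 ∧ i ≠ F1 ∧ i ≠ F2) : B.card ≤ 1 := by
  have hE := h.vsE
  have h1 := cost_T (a := 7) (b := 2) (c := 4) (N := 13) (by norm_num) (by norm_num) h.mn.ih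
    h.clsE (by omega) (T := {b0}) (B := B)
    (singleton_subset_iff.2 (mem_sdiff.2 ⟨h.b0v, h.bx⟩)) (singleton_nonempty _) h.fcE (by
      intro i hi
      obtain ⟨⟨d, hd, hdi⟩, h2, h3, h4⟩ := hB i hi
      have hio : i ≠ o := fun h5 => h.s0.nb (h5 ▸ ⟨d, hd, hdi⟩)
      have hit : i ∉ G.tf {x0, x1, x2} := by
        rw [h.mem_tfW]
        tauto
      have hdt : d ∉ G.tds {x0, x1, x2} := side_not_tds hit hdi
      refine mem_erase.2 ⟨hio, mem_tf.2 ⟨d, star_sub_tds (mem_singleton_self _) ?_, ?_⟩⟩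
      · rw [star_del]; exact mem_sdiff.2 ⟨hd, hdt⟩
      · rcases hdi with h5 | h5
        · exact Or.inl ((phi_iff hit hio).2 h5)
        · exact Or.inr ((phi_iff hit hio).2 h5))
  have h2 := h.notfree
  have h3 := h.bound
  have h4 := h.wsW
  rw [card_singleton] at h1
  omega

theorem spec_Q3Leg (m : ℕ) : SpecQ3Leg m := by
  intro G o x0 x1 x2 e0 e1 e2 g0 g1 g2 F0 F1 F2 b0 b1 b2 hb ht
  have h := hb.toQ3
  have t := h.tri
  have hc := h.p1.card_fv h.good h.b0v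
  have h3 := h.s0.db
  have hF0 : F0 ∈ G.fv b0 := mem_fv.2 h.s0.bF'
  have hF2 : F2 ∈ G.fv b0 := mem_fv.2 h.s0.bF
  have h4 := h.two_faces (B := (G.fv b0).filter fun i => i ≠ F0 ∧ i ≠ F2) (by
    intro i hi
    obtain ⟨h5, h6, h7⟩ := mem_filter.1 hi
    exact ⟨mem_fv.1 h5, h6, fun h8 => ht (h8 ▸ mem_fv.1 h5), h7⟩)
  have h5 : (G.fv b0).card ≤ ((G.fv b0).filter fun i => i ≠ F0 ∧ i ≠ F2).card + 2 := by
    have h6 : G.fv b0 ⊆ ((G.fv b0).filter fun i => i ≠ F0 ∧ i ≠ F2) ∪ {F0, F2} := by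
      intro i hi
      by_cases h7 : i = F0
      · exact mem_union_right _ (by simp [h7])
      · by_cases h8 : i = F2
        · exact mem_union_right _ (by simp [h8])
        · exact mem_union_left _ (mem_filter.2 ⟨hi, h7, h8⟩)
    have h7 := (card_le_card h6).trans (card_union_le _ _)
    have h8 := card_le_two (a := F0) (b := F2)
    omega
  have hcard : (G.star b0).card = 3 := by omega
  have hm : g0 ∈ G.star b0 := h.s0.eb.right
  have h6 : ((G.star b0).erase g0).card = 2 := by rw [card_erase_of_mem hm, hcard]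
  obtain ⟨d, d', hdd, hs⟩ := card_eq_two.1 h6
  have m1 : d ∈ (G.star b0).erase g0 := by rw [hs]; simp
  have m2 : d' ∈ (G.star b0).erase g0 := by rw [hs]; simp
  obtain ⟨n1, md⟩ := mem_erase.1 m1
  obtain ⟨n2, md'⟩ := mem_erase.1 m2
  have hst : G.star b0 = {g0, d, d'} := by
    rw [← insert_erase hm, hs]
  obtain ⟨O, hO1, hO2, hO⟩ := S_deg3 h.good h.b0v hst n1.symm n2.symm hdd h.s0.cub.sg t.m20
    (h.p1.lr _ (star_sub md)) (h.p1.lr _ (star_sub md'))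
  have hOt : G.Touch b0 O := by
    rcases hO with ⟨h7, -⟩ | ⟨h7, -⟩
    · exact (h7.touch md).2
    · exact (h7.touch md').2
  have hOo : O ≠ o := fun h7 => h.s0.nb (h7 ▸ hOt)
  have hO1' : O ≠ F1 := fun h7 => ht (h7 ▸ hOt)
  rcases hO with ⟨h7, h8⟩ | ⟨h7, h8⟩
  · exact ⟨d, d', O, hst, n1.symm, n2.symm, hdd, h7, h8, hOo, hO2, hO1', hO1⟩
  · exact ⟨d', d, O, by rw [hst]; congr 1; exact pair_comm _ _, n2.symm, n1.symm, hdd.symm, h7, h8,
      hOo, hO2, hO1', hO1⟩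

end Gr

end Pool.Agent.Lib.MP06c549.T6H
end

section
/-!
# MP_06c549_co, T6H/K13: the outer face is a triangle: `spec_Q3Near`

Two of the inner neighbours `b` are joined by an edge of weight `0` or by two edges of weight `0`,
since otherwise an edge of weight `0` can be added between them.
-/
set_option autoImplicit false

namespace Pool.Agent.Lib.MP06c549.T6H

open Finset

namespace Gr

theorem spec_Q3Near (m : ℕ) : SpecQ3Near m := by
  intro G o x0 x1 x2 e0 e1 e2 g0 g1 g2 F0 F1 F2 b0 b1 b2 hb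
  have h := hb.toQ3
  have t := h.tri
  by_contra hcon
  have hbx0 := h.bx
  have hbx1 := h.rot.bx
  simp only [mem_insert, mem_singleton, not_or] at hbx0 hbx1
  have hs1 : ∀ g, G.E g b0 b1 → 1 ≤ G.w g := by
    intro g hg
    by_contra h1
    exact hcon (Or.inl ⟨g, hg, by omega⟩)
  have hs2 : ∀ g g' v, G.E g b0 v → G.E g' v b1 → v ≠ x2 → 1 ≤ G.w g + G.w g' := by
    intro g g' v hg hg' hv
    by_contra h1
    refine hcon (Or.inr ⟨g, g', v, hg, hg', by omega, by omega, ?_, ?_, hv⟩)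
    · rintro rfl
      have h2 := hg'.left
      rw [h.s0.cub.st] at h2
      simp only [mem_insert, mem_singleton] at h2
      rcases h2 with rfl | rfl | rfl
      · exact hbx1.2.1 (hg'.other h.good t.a2.symm)
      · exact hb.n01 (h.s0.eb.other h.good hg')
      · exact hbx1.1 (hg'.other h.good t.a0)
    · rintro rfl
      have h2 := hg.right
      rw [h.s1.cub.st] at h2
      simp only [mem_insert, mem_singleton] at h2
      rcases h2 with rfl | rfl | rfl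
      · exact hbx0.1 (hg.symm.other h.good t.a0.symm)
      · exact hb.n01 (hg.symm.other h.good h.s1.eb)
      · exact hbx0.2.2 (hg.symm.other h.good t.a1)
  have hnf1 : (G.del {x0, x1, x2} o).tau < (G.del {x0, x1, x2} o).cost {b1} := by
    have h1 := h.refl.notfree
    rwa [show ({x1, x0, x2} : Finset ℕ) = {x0, x1, x2} from insert_comm _ _ _] at h1
  have key := t.bound1 h.mn.ih h.mn.cls h.mn.nn le_rfl hb.u0 h.s0.eb h.s1.eb hbx0.2.2 hbx1.2.1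
    hb.n01 hbx0.2.1 hs1 hs2 h.notfree hnf1
  have h2 := h.bound
  have h3 := h.wsW
  have h4 := h.ihE
  rcases key with key | key
  · have h5 := pot_del_le (a := 7) (b := 2) (c := 4) (by norm_num) h.good h.mn.cls.huc h.sub
      h.subF
    rw [h.cardW, h.cardF] at h5
    have h6 := h.mn.bad
    have h7 : G.w e1 + G.w g2 + G.w e2 ≤ G.ws (G.tds {x0, x1, x2}) := by
      rw [← ws_three t.c2.n1 t.c2.n2 t.c2.n3]
      refine ws_mono fun d hd => ?_
      simp only [mem_insert, mem_singleton] at hd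
      rw [h.mem_tdsW]
      tauto
    have h8 : (if F0 ∈ G.hs then 1 else 0) ≤ 1 := by
      split_ifs <;> omega
    omega
  · omega

end Gr

end Pool.Agent.Lib.MP06c549.T6H
end
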