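import Pool.Agent.Lib.MP_06c549_co.T6H.K3P
import Pool.Agent.Lib.MP_06c549_co.T6H.K13.Q3Near
import Pool.Agent.Lib.MP_06c549_co.T6H.Step56
import Pool.Agent.Lib.MP_06c549_co.T6H.Step7P

section
/-!
# MP_06c549_co, T6H/K13: an outer triangle, the move P
-/
set_option autoImplicit false

namespace Pool.Agent.Lib.MP06c549.T6H

open Finset

namespace Gr

variable {G : Gr} {o m : ℕ}

namespace Q3b

variable {x0 x1 x2 e0 e1 e2 g0 g1 g2 F0 F1 F2 b0 b1 b2 : ℕ}

section

variable (h : Q3b m G o x0 x1 x2 e0 e1 e2 g0 g1 g2 F0 F1 F2 b0 b1 b2)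

include h

lemma nx0 {v : ℕ} (hv : G.Touch v o) : b0 ≠ v := fun h1 => h.s0.nb (h1 ▸ hv)

lemma b0_notMem : b0 ≠ x0 ∧ b0 ≠ x1 ∧ b0 ≠ x2 :=
  ⟨h.nx0 h.tri.c0.tO, h.nx0 h.tri.c1.tO, h.nx0 h.tri.c2.tO⟩

lemma b1_notMem : b1 ≠ x1 ∧ b1 ≠ x2 ∧ b1 ≠ x0 := h.rot.b0_notMem

lemma b2_notMem : b2 ≠ x2 ∧ b2 ≠ x0 ∧ b2 ≠ x1 := h.rot.rot.b0_notMem

lemma W_card : ({x0, x1, x2, b0, b1, b2} : Finset ℕ).card = 6 := by
  obtain ⟨a1, a2, a3⟩ := h.b0_notMem
  obtain ⟨b1', b2', b3'⟩ := h.b1_notMem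
  obtain ⟨c1, c2, c3⟩ := h.b2_notMem
  have n01 := h.tri.n01
  have n12 := h.tri.n12
  have n20 := h.tri.n20
  rw [card_insert_of_notMem, card_insert_of_notMem, card_insert_of_notMem,
    card_insert_of_notMem, card_pair h.n12]
  · simp only [mem_insert, mem_singleton, not_or]
    exact ⟨h.n01, h.n20.symm⟩
  · simp only [mem_insert, mem_singleton, not_or]
    exact ⟨a3.symm, b2'.symm, c1.symm⟩
  · simp only [mem_insert, mem_singleton, not_or]
    exact ⟨n12, a2.symm, b1'.symm, c3.symm⟩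
  · simp only [mem_insert, mem_singleton, not_or]
    exact ⟨n01, n20.symm, a1.symm, b3'.symm, c2.symm⟩

lemma W_sub (hG : G.Good) : ({x0, x1, x2, b0, b1, b2} : Finset ℕ) ⊆ G.vs := by
  intro x hx
  simp only [mem_insert, mem_singleton] at hx
  rcases hx with rfl | rfl | rfl | rfl | rfl | rfl
  · exact h.s0.eb.memv hG
  · exact h.s1.eb.memv hG
  · exact h.s2.eb.memv hG
  · exact h.s0.eb.symm.memv hG
  · exact h.s1.eb.symm.memv hG
  · exact h.s2.eb.symm.memv hG

lemma W_FC (hG : G.Good) : G.FC {x0, x1, x2, b0, b1, b2} o := by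
  have e1' : ({x0, x1, x2, b0, b1, b2} : Finset ℕ) =
      insert b0 (insert b1 (insert b2 (insert x0 (insert x1 {x2})))) := by
    ext i; simp only [mem_insert, mem_singleton]; tauto
  rw [e1']
  refine FC_insert hG (FC_insert hG (FC_insert hG (FC_insert hG (FC_insert hG (FC_single hG
    (h.s2.eb.memv hG) (Or.inr h.tri.c2.tO)) (h.s1.eb.memv hG) (Or.inr (Or.inl h.tri.c1.tO)))
    (h.s0.eb.memv hG) (Or.inr (Or.inl h.tri.c0.tO))) (h.s2.eb.symm.memv hG)
    (Or.inr (Or.inr ⟨g2, h.s2.eb.right, ?_⟩))) (h.s1.eb.symm.memv hG)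
    (Or.inr (Or.inr ⟨g1, h.s1.eb.right, ?_⟩))) (h.s0.eb.symm.memv hG)
    (Or.inr (Or.inr ⟨g0, h.s0.eb.right, ?_⟩))
  · exact mem_tds_iff.2 ⟨x2, by simp, h.s2.eb.left⟩
  · exact mem_tds_iff.2 ⟨x1, by simp, h.s1.eb.left⟩
  · exact mem_tds_iff.2 ⟨x0, by simp, h.s0.eb.left⟩

/-- the faces touched by the triangle -/
lemma mF {W : Finset ℕ} (h0 : x0 ∈ W) (h1 : x1 ∈ W) :
    F0 ∈ G.tf W ∧ F1 ∈ G.tf W ∧ F2 ∈ G.tf W :=
  ⟨h.tri.c0.tF'.tfm h0, h.tri.c1.tF'.tfm h1, h.tri.c0.tF.tfm h0⟩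

lemma B_card {O : ℕ} (n0 : O ≠ F0) (n1 : O ≠ F1) (n2 : O ≠ F2) :
    ({O, F0, F1, F2} : Finset ℕ).card = 4 := by
  rw [card_insert_of_notMem, card_insert_of_notMem, card_pair h.tri.m12]
  · simp only [mem_insert, mem_singleton, not_or]
    exact ⟨h.tri.m01, h.tri.m20.symm⟩
  · simp only [mem_insert, mem_singleton, not_or]
    exact ⟨n0, n1, n2⟩

lemma B_sub {O : ℕ} {W : Finset ℕ} (h0 : x0 ∈ W) (h1 : x1 ∈ W) (no : O ≠ o) (hO : O ∈ G.tf W) :
    ({O, F0, F1, F2} : Finset ℕ) ⊆ (G.tf W).erase o := by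
  obtain ⟨m0, m1, m2⟩ := h.mF h0 h1
  intro i hi
  simp only [mem_insert, mem_singleton] at hi
  rw [mem_erase]
  rcases hi with rfl | rfl | rfl | rfl
  · exact ⟨no, hO⟩
  · exact ⟨h.tri.c1.f1, m0⟩
  · exact ⟨h.tri.c1.f2, m1⟩
  · exact ⟨h.tri.c0.f1, m2⟩

lemma e_card : G.ws {e0, e1, e2} = G.w e0 + G.w e1 + G.w e2 := by
  unfold ws
  rw [sum_insert, sum_pair h.tri.c2.n2]
  · ring
  · simp only [mem_insert, mem_singleton, not_or]
    exact ⟨h.tri.c1.n2, h.tri.c0.n2.symm⟩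

end

/-- **the move P**: the edges at `b1` and `b2` have an end in `{b0, x1, x2} ∪ A` -/
theorem moveP (h : Q3b m G o x0 x1 x2 e0 e1 e2 g0 g1 g2 F0 F1 F2 b0 b1 b2)
    {A : Finset ℕ} (hA : A ⊆ G.vs)
    (hAW : Disjoint A {x0, x1, x2, b0, b1, b2}) (hAc : A.card ≤ 2)
    (hAn : ∀ a ∈ A, ∃ b ∈ ({b0, b1, b2} : Finset ℕ), ∃ d, G.E d a b)
    (hc1 : ∀ d ∈ G.star b1, ∃ v ∈ ({b0, x1, x2} : Finset ℕ) ∪ A, d ∈ G.star v)
    (hc2 : ∀ d ∈ G.star b2, ∃ v ∈ ({b0, x1, x2} : Finset ℕ) ∪ A, d ∈ G.star v) {O v : ℕ}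
    (hv : v ∈ ({x0, x1, x2, b0, b1, b2} : Finset ℕ) ∪ A) (hO : G.Touch v O) (no : O ≠ o)
    (n0 : O ≠ F0) (n1 : O ≠ F1) (n2 : O ≠ F2) : False := by
  have hgd := h.mn.cls.good
  have hFC : ∀ A' ⊆ A, G.FC (A' ∪ {x0, x1, x2, b0, b1, b2}) o := by
    intro A' hA'
    induction A' using Finset.induction_on with
    | empty => rw [empty_union]; exact h.W_FC hgd
    | insert a A' ha ih =>
      rw [insert_union]
      obtain ⟨b, hb, d, hd⟩ := hAn a (hA' (mem_insert_self _ _))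
      refine FC_insert hgd (ih fun x hx => hA' (mem_insert_of_mem hx)) (hd.memv hgd)
        (Or.inr (Or.inr ⟨d, hd.left, mem_tds_iff.2 ⟨b, ?_, hd.right⟩⟩))
      apply mem_union_right
      simp only [mem_insert, mem_singleton] at hb ⊢
      tauto
  have hX : ({b0, x1, x2} : Finset ℕ) ∪ A ⊆ G.vs := by
    refine union_subset (fun x hx => h.W_sub hgd ?_) hA
    simp only [mem_insert, mem_singleton] at hx ⊢
    tauto
  have hsc : ∀ {d v : ℕ}, v ∈ ({b0, x1, x2} : Finset ℕ) ∪ A → d ∈ G.star v →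
      G.p d ∈ ({b0, x1, x2} : Finset ℕ) ∪ A ∨ G.q d ∈ ({b0, x1, x2} : Finset ℕ) ∪ A ∨
        G.l d ∈ (∅ : Finset ℕ) ∨ G.r d ∈ (∅ : Finset ℕ) := fun hv hd => star_cov hd hv
  have key := h.mn.move_w (by norm_num) (by norm_num) (W := A ∪ {x0, x1, x2, b0, b1, b2})
    (X₀ := {b0, x1, x2} ∪ A) (Y₀ := ∅) (B := {O, F0, F1, F2}) (D := {e0, e1, e2}) (D' := ∅)
    (union_subset hA (h.W_sub hgd)) ⟨x0, by simp⟩ (hFC A Subset.rfl) hX (empty_subset _)
    (h.B_sub (by simp) (by simp) no (hO.tfm (by rwa [union_comm])))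
    (by
      intro d hd
      obtain ⟨x, hx, hdx⟩ := mem_tds_iff.1 hd
      rw [mem_union] at hx
      rcases hx with hx | hx
      · exact hsc (mem_union_right _ hx) hdx
      simp only [mem_insert, mem_singleton] at hx
      rcases hx with rfl | rfl | rfl | rfl | rfl | rfl
      · rw [h.tri.c0.st, mem_insert, mem_insert, mem_singleton] at hdx
        rcases hdx with rfl | rfl | rfl
        · exact hsc (v := x2) (by simp) h.tri.a2.left
        · exact hsc (v := b0) (by simp) h.s0.eb.right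
        · exact hsc (v := x1) (by simp) h.tri.a0.right
      · exact hsc (by simp) hdx
      · exact hsc (by simp) hdx
      · exact hsc (by simp) hdx
      · obtain ⟨v, hv, hdv⟩ := hc1 d hdx
        exact hsc hv hdv
      · obtain ⟨v, hv, hdv⟩ := hc2 d hdx
        exact hsc hv hdv)
    (by
      intro d hd
      simp only [mem_insert, mem_singleton] at hd
      rcases hd with rfl | rfl | rfl
      · exact mem_tds_iff.2 ⟨x0, by simp, h.tri.a0.left⟩
      · exact mem_tds_iff.2 ⟨x1, by simp, h.tri.a1.left⟩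
      · exact mem_tds_iff.2 ⟨x2, by simp, h.tri.a2.left⟩)
    (empty_subset _) (disjoint_empty_right _) (by simp)
  have e' : G.ws (∅ : Finset ℕ) = 0 := by unfold ws; rw [sum_empty]
  have c1 := card_union_le ({b0, x1, x2} : Finset ℕ) A
  have c2 : ({b0, x1, x2} : Finset ℕ).card ≤ 3 := card_le_three
  rw [card_union_of_disjoint hAW, h.W_card, h.B_card n0 n1 n2, fpr_empty, h.e_card, e'] at key
  have hw := h.wt
  omega

/-- the inner neighbours are pairwise adjacent vertices of degree three -/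
theorem prism (h : Q3b m G o x0 x1 x2 e0 e1 e2 g0 g1 g2 F0 F1 F2 b0 b1 b2)
    {d d' d'' : ℕ}
    (s1 : ∀ k ∈ G.star b1, k = g1 ∨ k = d ∨ k = d'') (s2 : ∀ k ∈ G.star b2, k = g2 ∨ k = d' ∨ k = d'')
    (hd : G.E d b0 b1) (hd' : G.E d' b0 b2) (hd'' : G.E d'' b1 b2) {O v : ℕ}
    (hv : v ∈ ({x0, x1, x2, b0, b1, b2} : Finset ℕ)) (hO : G.Touch v O) (no : O ≠ o)
    (n0 : O ≠ F0) (n1 : O ≠ F1) (n2 : O ≠ F2) : False := by
  have hgd := h.mn.cls.good
  obtain ⟨z1, z2, z3⟩ := h.b0_notMem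
  obtain ⟨z4, z5, z6⟩ := h.b1_notMem
  obtain ⟨z7, z8, z9⟩ := h.b2_notMem
  have hX : ({b0, b1, x1, x2} : Finset ℕ) ⊆ G.vs := by
    intro x hx
    apply h.W_sub hgd
    simp only [mem_insert, mem_singleton] at hx ⊢
    tauto
  have hsc : ∀ {d v : ℕ}, v ∈ ({b0, b1, x1, x2} : Finset ℕ) → d ∈ G.star v →
      G.p d ∈ ({b0, b1, x1, x2} : Finset ℕ) ∨ G.q d ∈ ({b0, b1, x1, x2} : Finset ℕ) ∨
        G.l d ∈ (∅ : Finset ℕ) ∨ G.r d ∈ (∅ : Finset ℕ) := fun hv hd => star_cov hd hv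
  -- the weights
  obtain ⟨ht, h12, h13, h23⟩ := evenSet_triangle hd hd'' hd'.symm h.n01 h.n12 h.n20
  have hgir := h.mn.cls.girth {d, d'', d'} (by
    intro k hk
    simp only [mem_insert, mem_singleton] at hk
    rcases hk with rfl | rfl | rfl
    · exact hd.1
    · exact hd''.1
    · exact hd'.1) ht ⟨d, by simp⟩
  rw [sum_insert (by simp [h12, h13]), sum_pair h23] at hgir
  have hdis : Disjoint ({e0, e1, e2} : Finset ℕ) {d, d'', d'} := by
    have hx : ∀ {e x : ℕ}, G.Touch x o → e ∈ G.star x → e ∉ ({d, d'', d'} : Finset ℕ) := by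
      intro e x hx he hm
      simp only [mem_insert, mem_singleton] at hm
      rcases hm with rfl | rfl | rfl
      · rcases hd.ends he with h1 | h1
        · exact h.s0.nb (h1 ▸ hx)
        · exact h.s1.nb (h1 ▸ hx)
      · rcases hd''.ends he with h1 | h1
        · exact h.s1.nb (h1 ▸ hx)
        · exact h.s2.nb (h1 ▸ hx)
      · rcases hd'.ends he with h1 | h1
        · exact h.s0.nb (h1 ▸ hx)
        · exact h.s2.nb (h1 ▸ hx)
    rw [disjoint_left]
    intro e he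
    simp only [mem_insert, mem_singleton] at he
    rcases he with rfl | rfl | rfl
    · exact hx h.tri.c0.tO h.tri.a0.left
    · exact hx h.tri.c1.tO h.tri.a1.left
    · exact hx h.tri.c2.tO h.tri.a2.left
  have hD : G.ws ({e0, e1, e2} ∪ {d, d'', d'} : Finset ℕ) =
      G.w e0 + G.w e1 + G.w e2 + (G.w d + G.w d'' + G.w d') := by
    rw [ws_union hdis, h.e_card]
    congr 1
    unfold ws
    rw [sum_insert (by simp [h12, h13]), sum_pair h23]
    ring
  have key := h.mn.move_w (by norm_num) (by norm_num) (W := {x0, x1, x2, b0, b1, b2})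
    (X₀ := {b0, b1, x1, x2}) (Y₀ := ∅) (B := {O, F0, F1, F2})
    (D := {e0, e1, e2} ∪ {d, d'', d'}) (D' := ∅)
    (h.W_sub hgd) ⟨x0, by simp⟩ (h.W_FC hgd) hX (empty_subset _)
    (h.B_sub (by simp) (by simp) no (hO.tfm hv))
    (by
      intro k hk
      obtain ⟨x, hx, hdx⟩ := mem_tds_iff.1 hk
      simp only [mem_insert, mem_singleton] at hx
      rcases hx with rfl | rfl | rfl | rfl | rfl | rfl
      · rw [h.tri.c0.st, mem_insert, mem_insert, mem_singleton] at hdx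
        rcases hdx with rfl | rfl | rfl
        · exact hsc (v := x2) (by simp) h.tri.a2.left
        · exact hsc (v := b0) (by simp) h.s0.eb.right
        · exact hsc (v := x1) (by simp) h.tri.a0.right
      · exact hsc (by simp) hdx
      · exact hsc (by simp) hdx
      · exact hsc (by simp) hdx
      · exact hsc (by simp) hdx
      · rcases s2 k hdx with rfl | rfl | rfl
        · exact hsc (v := x2) (by simp) h.s2.eb.left
        · exact hsc (v := b0) (by simp) hd'.left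
        · exact hsc (v := b1) (by simp) hd''.left)
    (by
      intro k hk
      rw [mem_union] at hk
      simp only [mem_insert, mem_singleton] at hk
      rcases hk with (rfl | rfl | rfl) | (rfl | rfl | rfl)
      · exact mem_tds_iff.2 ⟨x0, by simp, h.tri.a0.left⟩
      · exact mem_tds_iff.2 ⟨x1, by simp, h.tri.a1.left⟩
      · exact mem_tds_iff.2 ⟨x2, by simp, h.tri.a2.left⟩
      · exact mem_tds_iff.2 ⟨b0, by simp, hd.left⟩
      · exact mem_tds_iff.2 ⟨b1, by simp, hd''.left⟩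
      · exact mem_tds_iff.2 ⟨b0, by simp, hd'.left⟩)
    (empty_subset _) (disjoint_empty_right _) (by simp)
  have e' : G.ws (∅ : Finset ℕ) = 0 := by unfold ws; rw [sum_empty]
  have c2 : ({b0, b1, x1, x2} : Finset ℕ).card ≤ 4 := card_le_four
  rw [h.W_card, h.B_card n0 n1 n2, fpr_empty, hD, e'] at key
  have hw := h.wt
  omega

/-- an edge at `b0` other than `g0` does not go to the triangle -/
lemma out (h : Q3b m G o x0 x1 x2 e0 e1 e2 g0 g1 g2 F0 F1 F2 b0 b1 b2) {k a : ℕ}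
    (hk : G.E k b0 a) (hkg : k ≠ g0) : a ≠ x0 ∧ a ≠ x1 ∧ a ≠ x2 := by
  obtain ⟨z1, z2, z3⟩ := h.b0_notMem
  refine ⟨?_, ?_, ?_⟩
  · rintro rfl
    have h1 := hk.right
    rw [h.tri.c0.st, mem_insert, mem_insert, mem_singleton] at h1
    rcases h1 with rfl | rfl | rfl
    · rcases h.tri.a2.ends hk.left with h1 | h1
      · exact z3 h1
      · exact z1 h1
    · exact hkg rfl
    · rcases h.tri.a0.ends hk.left with h1 | h1
      · exact z1 h1
      · exact z2 h1
  · rintro rfl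
    have h1 := hk.right
    rw [h.tri.c1.st, mem_insert, mem_insert, mem_singleton] at h1
    rcases h1 with rfl | rfl | rfl
    · rcases h.tri.a0.ends hk.left with h1 | h1
      · exact z1 h1
      · exact z2 h1
    · rcases h.s1.eb.ends hk.left with h1 | h1
      · exact z2 h1
      · exact h.n01 h1
    · rcases h.tri.a1.ends hk.left with h1 | h1
      · exact z2 h1
      · exact z3 h1
  · rintro rfl
    have h1 := hk.right
    rw [h.tri.c2.st, mem_insert, mem_insert, mem_singleton] at h1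
    rcases h1 with rfl | rfl | rfl
    · rcases h.tri.a1.ends hk.left with h1 | h1
      · exact z2 h1
      · exact z3 h1
    · rcases h.s2.eb.ends hk.left with h1 | h1
      · exact z3 h1
      · exact h.n20 h1.symm
    · rcases h.tri.a2.ends hk.left with h1 | h1
      · exact z3 h1
      · exact z1 h1

/-- the edges between `b`s are no spokes -/
lemma g_ne (h : Q3b m G o x0 x1 x2 e0 e1 e2 g0 g1 g2 F0 F1 F2 b0 b1 b2) {d : ℕ}
    (hd : G.E d b0 b1) : g0 ≠ d ∧ g1 ≠ d := by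
  obtain ⟨z1, z2, z3⟩ := h.b0_notMem
  obtain ⟨z4, z5, z6⟩ := h.b1_notMem
  constructor
  · rintro rfl
    rcases h.s0.eb.ends hd.right with h1 | h1
    · exact z6 h1
    · exact h.n01 h1.symm
  · rintro rfl
    rcases h.s1.eb.ends hd.left with h1 | h1
    · exact z2 h1
    · exact h.n01 h1

/-- `b0` is adjacent to `b1` and `b2` -/
theorem k10a (h : Q3b m G o x0 x1 x2 e0 e1 e2 g0 g1 g2 F0 F1 F2 b0 b1 b2)
    (c1 : (G.star b1).card = 3) (c2 : (G.star b2).card = 3) {d d' : ℕ}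
    (hd : G.E d b0 b1) (hd' : G.E d' b0 b2) {O v : ℕ}
    (hv : v ∈ ({x0, x1, x2, b0, b1, b2} : Finset ℕ)) (hO : G.Touch v O) (no : O ≠ o)
    (n0 : O ≠ F0) (n1 : O ≠ F1) (n2 : O ≠ F2) : False := by
  have hgd := h.mn.cls.good
  have hdd : d ≠ d' := by
    rintro rfl
    exact h.n12 (hd.other hgd hd')
  have g1d : g1 ≠ d := (h.g_ne hd).2
  have g2d : g2 ≠ d' := (h.rot.rot.g_ne hd'.symm).1
  obtain ⟨k1, s1, k1g, k1d⟩ := third c1 h.s1.eb.right hd.right g1d
  obtain ⟨k2, s2, k2g, k2d⟩ := third c2 h.s2.eb.right hd'.right g2d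
  have m1 : k1 ∈ G.star b1 := by rw [s1]; simp
  have m2 : k2 ∈ G.star b2 := by rw [s2]; simp
  obtain ⟨a1, ha1⟩ := exists_E m1
  obtain ⟨a2, ha2⟩ := exists_E m2
  obtain ⟨p1, p2, p0⟩ := h.rot.out ha1 k1g
  obtain ⟨q2, q0, q1⟩ := h.rot.rot.out ha2 k2g
  by_cases hp : a1 = b2
  · subst hp
    refine h.prism (d := d) (d' := d') (d'' := k1) ?_ ?_ hd hd' ha1 hv hO no n0 n1 n2
    · intro k hk
      rw [s1] at hk
      simpa using hk
    · intro k hk
      have h1 := ha1.right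
      rw [s2] at hk h1
      simp only [mem_insert, mem_singleton] at hk h1
      have h2 : k1 ≠ g2 := (h.rot.g_ne ha1).2.symm
      have h3 : k1 ≠ d' := by
        rintro rfl
        rcases hd'.ends ha1.left with h4 | h4
        · exact h.n01 h4.symm
        · exact h.n12 h4
      have h4 : k1 = k2 := by tauto
      rw [h4]
      exact hk
  have r1 : a1 ≠ b1 := (ha1.ne hgd).symm
  have r2 : a2 ≠ b2 := (ha2.ne hgd).symm
  -- a second edge between two `b`s
  have r3 : a2 ≠ b1 := by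
    rintro rfl
    have h1 := ha2.right
    rw [s1] at h1
    simp only [mem_insert, mem_singleton] at h1
    rcases h1 with h1 | h1 | h1
    · exact (h.rot.g_ne ha2.symm).1 h1.symm
    · rw [h1] at ha2
      rcases hd.ends ha2.left with h4 | h4
      · exact h.n20 h4
      · exact h.n12 h4.symm
    · rw [h1] at ha2
      exact hp (ha1.other hgd ha2.symm)
  -- the third neighbours which are not `b0`
  refine h.moveP (A := ({a1, a2} : Finset ℕ).erase b0) ?_ ?_ ?_ ?_ ?_ ?_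
    (mem_union_left _ hv) hO no n0 n1 n2
  · intro x hx
    have hx' := (mem_erase.1 hx).2
    simp only [mem_insert, mem_singleton] at hx'
    rcases hx' with rfl | rfl
    · exact ha1.symm.memv hgd
    · exact ha2.symm.memv hgd
  · rw [disjoint_left]
    intro x hx
    obtain ⟨hx0, hx'⟩ := mem_erase.1 hx
    simp only [mem_insert, mem_singleton, not_or] at hx' ⊢
    rcases hx' with rfl | rfl
    · exact ⟨p0, p1, p2, hx0, r1, hp⟩
    · exact ⟨q0, q1, q2, hx0, r3, r2⟩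
  · exact (card_le_card (erase_subset _ _)).trans card_le_two
  · intro a ha
    have ha' := (mem_erase.1 ha).2
    simp only [mem_insert, mem_singleton] at ha'
    rcases ha' with rfl | rfl
    · exact ⟨b1, by simp, k1, ha1.symm⟩
    · exact ⟨b2, by simp, k2, ha2.symm⟩
  · intro k hk
    rw [s1] at hk
    simp only [mem_insert, mem_singleton] at hk
    rcases hk with rfl | rfl | rfl
    · exact ⟨x1, by simp, h.s1.eb.left⟩
    · exact ⟨b0, by simp, hd.left⟩
    · by_cases h1 : a1 = b0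
      · exact ⟨b0, by simp, h1 ▸ ha1.right⟩
      · exact ⟨a1, mem_union_right _ (mem_erase.2 ⟨h1, by simp⟩), ha1.right⟩
  · intro k hk
    rw [s2] at hk
    simp only [mem_insert, mem_singleton] at hk
    rcases hk with rfl | rfl | rfl
    · exact ⟨x2, by simp, h.s2.eb.left⟩
    · exact ⟨b0, by simp, hd'.left⟩
    · by_cases h1 : a2 = b0
      · exact ⟨b0, by simp, h1 ▸ ha2.right⟩
      · exact ⟨a2, mem_union_right _ (mem_erase.2 ⟨h1, by simp⟩), ha2.right⟩

/-- **no two of `b0`, `b1`, `b2` are adjacent** -/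
theorem k10 (h : Q3b m G o x0 x1 x2 e0 e1 e2 g0 g1 g2 F0 F1 F2 b0 b1 b2)
    (c0 : (G.star b0).card = 3) (c1 : (G.star b1).card = 3) (c2 : (G.star b2).card = 3)
    (l12 : G.Near x0 x1 x2 b1 b2) (l20 : G.Near x0 x1 x2 b2 b0) {d : ℕ} (hd : G.E d b0 b1) {O v : ℕ}
    (hv : v ∈ ({x0, x1, x2, b0, b1, b2} : Finset ℕ)) (hO : G.Touch v O) (no : O ≠ o)
    (n0 : O ≠ F0) (n1 : O ≠ F1) (n2 : O ≠ F2) : False := by
  have hgd := h.mn.cls.good
  by_cases h20 : ∃ d', G.E d' b0 b2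
  · obtain ⟨d', hd'⟩ := h20
    exact h.k10a c1 c2 hd hd' hv hO no n0 n1 n2
  by_cases h21 : ∃ d', G.E d' b1 b2
  · obtain ⟨d', hd'⟩ := h21
    refine h.refl.k10a c0 c2 hd.symm hd' (O := O) (v := v) ?_ hO no n0 n2 n1
    simp only [mem_insert, mem_singleton] at hv ⊢
    tauto
  push Not at h20 h21
  obtain ⟨g0d, g1d⟩ := h.g_ne hd
  obtain ⟨k0, s0, k0g, k0d⟩ := third c0 h.s0.eb.right hd.left g0d
  obtain ⟨k1, s1, k1g, k1d⟩ := third c1 h.s1.eb.right hd.right g1d
  -- the common neighbour of `b2` and `b0`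
  have l20' : ∃ g v, G.E g b2 v ∧ G.E k0 b0 v := by
    rcases l20 with ⟨g, h1, -⟩ | ⟨g, g', v, h1, h2, -, -, v0, v1, v2⟩
    · exact absurd h1.symm (h20 g)
    · have h4 := h2.right
      rw [s0] at h4
      simp only [mem_insert, mem_singleton] at h4
      rcases h4 with h4 | h4 | h4
      · rw [h4] at h2
        exact absurd (h.s0.eb.symm.other hgd h2.symm).symm v0
      · exfalso
        rw [h4] at h2
        have h5 : v = b1 := (hd.other hgd h2.symm).symm
        rw [h5] at h1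
        exact h21 g h1.symm
      · exact ⟨g, v, h1, h4 ▸ h2.symm⟩
  have l21' : ∃ g v, G.E g b2 v ∧ G.E k1 b1 v := by
    rcases l12 with ⟨g, h1, -⟩ | ⟨g', g, v, h2, h1, -, -, v0, v1, v2⟩
    · exact absurd h1 (h21 g)
    · have h4 := h2.left
      rw [s1] at h4
      simp only [mem_insert, mem_singleton] at h4
      rcases h4 with h4 | h4 | h4
      · rw [h4] at h2
        exact absurd (h.s1.eb.symm.other hgd h2).symm v1
      · exfalso
        rw [h4] at h2
        have h5 : v = b0 := (hd.symm.other hgd h2).symm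
        rw [h5] at h1
        exact h20 g h1
      · exact ⟨g, v, h1.symm, h4 ▸ h2⟩
  obtain ⟨g, a, hg, ha⟩ := l20'
  obtain ⟨g', a', hg', ha'⟩ := l21'
  obtain ⟨p0, p1, p2⟩ := h.out ha k0g
  obtain ⟨q1, q2, q0⟩ := h.rot.out ha' k1g
  have gg : g2 ≠ g := by
    rintro rfl
    exact p2 (h.s2.eb.symm.other hgd hg).symm
  obtain ⟨k, s2, kg2, kg⟩ := third c2 h.s2.eb.right hg.left gg
  have mk : k ∈ G.star b2 := by rw [s2]; simp
  obtain ⟨y, hy⟩ := exists_E mk
  obtain ⟨t2, t0, t1⟩ := h.rot.rot.out hy kg2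
  have ha'm : a' = a ∨ a' = y := by
    have h1 := hg'.left
    rw [s2] at h1
    simp only [mem_insert, mem_singleton] at h1
    rcases h1 with h1 | h1 | h1
    · exfalso
      rw [h1] at hg'
      exact q2 (h.s2.eb.symm.other hgd hg').symm
    · left
      rw [h1] at hg'
      exact hg'.other hgd hg
    · right
      rw [h1] at hg'
      exact hg'.other hgd hy
  have r0 : a ≠ b0 := (ha.ne hgd).symm
  have r2 : a ≠ b2 := (hg.ne hgd).symm
  have r1 : a ≠ b1 := by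
    rintro rfl
    exact h21 g hg.symm
  have u2 : y ≠ b2 := (hy.ne hgd).symm
  have u0 : y ≠ b0 := by
    rintro rfl
    exact h20 k hy.symm
  have u1 : y ≠ b1 := by
    rintro rfl
    exact h21 k hy.symm
  refine h.moveP (A := {a, y}) ?_ ?_ card_le_two ?_ ?_ ?_
    (mem_union_left _ hv) hO no n0 n1 n2
  · intro x hx
    simp only [mem_insert, mem_singleton] at hx
    rcases hx with rfl | rfl
    · exact ha.symm.memv hgd
    · exact hy.symm.memv hgd
  · rw [disjoint_left]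
    intro x hx
    simp only [mem_insert, mem_singleton, not_or] at hx ⊢
    rcases hx with rfl | rfl
    · exact ⟨p0, p1, p2, r0, r1, r2⟩
    · exact ⟨t0, t1, t2, u0, u1, u2⟩
  · intro x hx
    simp only [mem_insert, mem_singleton] at hx
    rcases hx with rfl | rfl
    · exact ⟨b0, by simp, k0, ha.symm⟩
    · exact ⟨b2, by simp, k, hy.symm⟩
  · intro e he
    rw [s1] at he
    simp only [mem_insert, mem_singleton] at he
    rcases he with rfl | rfl | rfl
    · exact ⟨x1, by simp, h.s1.eb.left⟩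
    · exact ⟨b0, by simp, hd.left⟩
    · refine ⟨a', mem_union_right _ ?_, ha'.right⟩
      rw [mem_insert, mem_singleton]
      exact ha'm
  · intro e he
    rw [s2] at he
    simp only [mem_insert, mem_singleton] at he
    rcases he with rfl | rfl | rfl
    · exact ⟨x2, by simp, h.s2.eb.left⟩
    · exact ⟨a, by simp, hg.right⟩
    · exact ⟨y, by simp, hy.right⟩

end Q3b

/-- **K10** -/
theorem spec_Q3Adj (m : ℕ) (hN : SpecQ3Near m) : SpecQ3Adj m := by
  intro G o x0 x1 x2 e0 e1 e2 g0 g1 g2 F0 F1 F2 b0 b1 b2 d0 d0' d1 d1' d2 d2' O0 O1 O2 h l0 l1 l2 d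
    hd
  exact h.k10 l0.card l1.card l2.card (hN _ _ _ _ _ _ _ _ _ _ _ _ _ _ _ _ _ h.rot).rot.rot
    (hN _ _ _ _ _ _ _ _ _ _ _ _ _ _ _ _ _ h.rot.rot).rot hd (O := O0) (v := b0) (by simp)
    l0.touch l0.o1 l0.o2 l0.o3 l0.o4

/-- **K8, the move P** -/
theorem spec_Q3P (m : ℕ) : ∀ (G : Gr) (o x0 x1 x2 e0 e1 e2 g0 g1 g2 F0 F1 F2 b0 b1 b2 : ℕ),
  Q3b m G o x0 x1 x2 e0 e1 e2 g0 g1 g2 F0 F1 F2 b0 b1 b2 → ∀ (A : Finset ℕ) (O b : ℕ), A.card ≤ 2 →
    (∀ a ∈ A, a ≠ b1 ∧ a ≠ b2 ∧ ∃ d, G.E d b0 a ∨ G.E d b1 a ∨ G.E d b2 a) →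
    (∀ d, d ∈ G.star b1 ∨ d ∈ G.star b2 →
      (G.p d = b0 ∨ G.p d = x1 ∨ G.p d = x2 ∨ G.p d ∈ A) ∨
      (G.q d = b0 ∨ G.q d = x1 ∨ G.q d = x2 ∨ G.q d ∈ A)) →
    (b = b0 ∨ b = b1 ∨ b = b2) → G.Touch b O → O ≠ o → O ≠ F0 → O ≠ F1 → O ≠ F2 → False := by
  intro G o x0 x1 x2 e0 e1 e2 g0 g1 g2 F0 F1 F2 b0 b1 b2 h A O b hA hA' hc hb hO n0 n1 n2 n3
  have hgd := h.mn.cls.good
  obtain ⟨z1, z2, z3⟩ := h.b0_notMem
  obtain ⟨z4, z5, z6⟩ := h.b1_notMem
  obtain ⟨z7, z8, z9⟩ := h.b2_notMem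
  have hmem : ∀ v ∈ A, v ≠ x0 → v ≠ b0 → v ∈ ({b0, x1, x2} : Finset ℕ) ∪
      A.filter (fun v => v ∉ ({x0, x1, x2, b0, b1, b2} : Finset ℕ)) := by
    intro v hv hx hb0
    obtain ⟨v1, v2, -⟩ := hA' v hv
    by_cases h1 : v = x1
    · simp [h1]
    by_cases h2 : v = x2
    · simp [h2]
    refine mem_union_right _ (mem_filter.2 ⟨hv, ?_⟩)
    simp only [mem_insert, mem_singleton, not_or]
    exact ⟨hx, h1, h2, hb0, v1, v2⟩
  have hcov : ∀ d, d ∈ G.star b1 ∨ d ∈ G.star b2 → ∃ v ∈ ({b0, x1, x2} : Finset ℕ) ∪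
      A.filter (fun v => v ∉ ({x0, x1, x2, b0, b1, b2} : Finset ℕ)), d ∈ G.star v := by
    intro d hd
    have hds : d ∈ G.ds := by
      rcases hd with h1 | h1
      · exact star_sub h1
      · exact star_sub h1
    have key : ∀ v, d ∈ G.star v → (v = b0 ∨ v = x1 ∨ v = x2 ∨ v ∈ A) → ∃ v ∈ ({b0, x1, x2} :
        Finset ℕ) ∪ A.filter (fun v => v ∉ ({x0, x1, x2, b0, b1, b2} : Finset ℕ)),
        d ∈ G.star v := by
      intro v hdv hv
      rcases hv with rfl | rfl | rfl | hv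
      · exact ⟨v, by simp, hdv⟩
      · exact ⟨v, by simp, hdv⟩
      · exact ⟨v, by simp, hdv⟩
      · by_cases hb0 : v = b0
        · exact ⟨v, by simp [hb0], hdv⟩
        · refine ⟨v, hmem v hv ?_ hb0, hdv⟩
          rintro rfl
          -- an edge at `x0` is not at `b1`, `b2`
          rw [h.tri.c0.st, mem_insert, mem_insert, mem_singleton] at hdv
          rcases hdv with rfl | rfl | rfl
          · rcases hd with h1 | h1
            · rcases h.tri.a2.ends h1 with h2 | h2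
              · exact z5 h2
              · exact z6 h2
            · rcases h.tri.a2.ends h1 with h2 | h2
              · exact z7 h2
              · exact z8 h2
          · rcases hd with h1 | h1
            · rcases h.s0.eb.ends h1 with h2 | h2
              · exact z6 h2
              · exact h.n01 h2.symm
            · rcases h.s0.eb.ends h1 with h2 | h2
              · exact z8 h2
              · exact h.n20 h2
          · rcases hd with h1 | h1
            · rcases h.tri.a0.ends h1 with h2 | h2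
              · exact z6 h2
              · exact z4 h2
            · rcases h.tri.a0.ends h1 with h2 | h2
              · exact z8 h2
              · exact z9 h2
    rcases hc d hd with h1 | h1
    · exact key _ (mem_star.2 ⟨hds, Or.inl rfl⟩) h1
    · exact key _ (mem_star.2 ⟨hds, Or.inr rfl⟩) h1
  refine h.moveP (A := A.filter (fun v => v ∉ ({x0, x1, x2, b0, b1, b2} : Finset ℕ))) (O := O)
    (v := b) ?_ ?_ ((card_le_card (filter_subset _ _)).trans hA) ?_
    (fun d hd => hcov d (Or.inl hd)) (fun d hd => hcov d (Or.inr hd)) ?_ hO n0 n1 n2 n3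
  · intro a ha
    obtain ⟨-, -, d, hd⟩ := hA' a (mem_filter.1 ha).1
    rcases hd with hd | hd | hd
    · exact hd.symm.memv hgd
    · exact hd.symm.memv hgd
    · exact hd.symm.memv hgd
  · rw [disjoint_left]
    intro x hx
    exact (mem_filter.1 hx).2
  · intro a ha
    obtain ⟨-, -, d, hd⟩ := hA' a (mem_filter.1 ha).1
    rcases hd with hd | hd | hd
    · exact ⟨b0, by simp, d, hd.symm⟩
    · exact ⟨b1, by simp, d, hd.symm⟩
    · exact ⟨b2, by simp, d, hd.symm⟩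
  · apply mem_union_left
    simp only [mem_insert, mem_singleton]
    tauto

end Gr

end Pool.Agent.Lib.MP06c549.T6H
end

section
/-!
# MP_06c549_co, T6H/K13: the outer triangle, points K4 and K5: no face at the triangle is unusable, the
three inner neighbours are different
-/
set_option autoImplicit false

namespace Pool.Agent.Lib.MP06c549.T6H

open Finset

namespace Gr

variable {G : Gr} {m o : ℕ}

/-- the outer triangle with its three spokes -/
structure Tsq (G : Gr) (m o x0 x1 x2 e0 e1 e2 g0 g1 g2 F0 F1 F2 b0 b1 b2 : ℕ) : Prop where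
  mn : Cx 7 2 4 13 m o G
  p1 : G.P1
  t : G.Tri o x0 x1 x2 e0 e1 e2 g0 g1 g2 F0 F1 F2
  s0 : G.Spk o x0 e2 g0 e0 F2 F0 b0
  s1 : G.Spk o x1 e0 g1 e1 F0 F1 b1
  s2 : G.Spk o x2 e1 g2 e2 F1 F2 b2

variable {x0 x1 x2 e0 e1 e2 g0 g1 g2 F0 F1 F2 b0 b1 b2 : ℕ}

namespace Tsq

lemma rotate (h : G.Tsq m o x0 x1 x2 e0 e1 e2 g0 g1 g2 F0 F1 F2 b0 b1 b2) :
    G.Tsq m o x1 x2 x0 e1 e2 e0 g1 g2 g0 F1 F2 F0 b1 b2 b0 :=
  ⟨h.mn, h.p1, h.t.rotate, h.s1, h.s2, h.s0⟩

lemma reflect (h : G.Tsq m o x0 x1 x2 e0 e1 e2 g0 g1 g2 F0 F1 F2 b0 b1 b2) :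
    G.Tsq m o x1 x0 x2 e0 e2 e1 g1 g0 g2 F0 F2 F1 b1 b0 b2 :=
  ⟨h.mn, h.p1, h.t.reflect, h.s1.symm, h.s0.symm, h.s2.symm⟩

variable (h : G.Tsq m o x0 x1 x2 e0 e1 e2 g0 g1 g2 F0 F1 F2 b0 b1 b2)

include h

lemma gd : G.Good := h.mn.cls.good

lemma W_sub : ({x0, x1, x2} : Finset ℕ) ⊆ G.vs := by
  intro x hx
  simp only [mem_insert, mem_singleton] at hx
  rcases hx with rfl | rfl | rfl
  · exact h.t.a0.memv h.gd
  · exact h.t.a1.memv h.gd
  · exact h.t.a2.memv h.gd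

lemma W_card : ({x0, x1, x2} : Finset ℕ).card = 3 := by
  rw [card_insert_of_notMem, card_pair h.t.n12]
  simp only [mem_insert, mem_singleton, not_or]
  exact ⟨h.t.n01, h.t.n20.symm⟩

lemma W_FC : G.FC {x0, x1, x2} o :=
  FC_insert h.gd (FC_insert h.gd (FC_single h.gd (h.t.a2.memv h.gd) (Or.inr h.t.c2.tO))
    (h.t.a1.memv h.gd) (Or.inr (Or.inl h.t.c1.tO))) (h.t.a0.memv h.gd)
    (Or.inr (Or.inl h.t.c0.tO))

lemma W_edges {d : ℕ} (hd : d ∈ G.tds {x0, x1, x2}) :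
    d = e0 ∨ d = e1 ∨ d = e2 ∨ d = g0 ∨ d = g1 ∨ d = g2 := by
  obtain ⟨x, hx, hdx⟩ := mem_tds_iff.1 hd
  simp only [mem_insert, mem_singleton] at hx
  rcases hx with rfl | rfl | rfl
  · rw [h.t.c0.st] at hdx
    simp only [mem_insert, mem_singleton] at hdx
    tauto
  · rw [h.t.c1.st] at hdx
    simp only [mem_insert, mem_singleton] at hdx
    tauto
  · rw [h.t.c2.st] at hdx
    simp only [mem_insert, mem_singleton] at hdx
    tauto

lemma W_faces : ∀ i ∈ G.tf {x0, x1, x2}, i = o ∨ i = F0 ∨ i = F1 ∨ i = F2 := by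
  intro i hi
  obtain ⟨d, hd, h1⟩ := mem_tf.1 hi
  rcases h.W_edges hd with rfl | rfl | rfl | rfl | rfl | rfl
  · rcases h.t.c0.se'.side h1 with h2 | h2 <;> tauto
  · rcases h.t.c1.se'.side h1 with h2 | h2 <;> tauto
  · rcases h.t.c0.se.side h1 with h2 | h2 <;> tauto
  · rcases h.t.c0.sg.side h1 with h2 | h2 <;> tauto
  · rcases h.t.c1.sg.side h1 with h2 | h2 <;> tauto
  · rcases h.t.c2.sg.side h1 with h2 | h2 <;> tauto

lemma mF0 : F0 ∈ G.tf {x0, x1, x2} := h.t.c0.tF'.tfm (by simp)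
lemma mF1 : F1 ∈ G.tf {x0, x1, x2} := h.t.c1.tF'.tfm (by simp)
lemma mF2 : F2 ∈ G.tf {x0, x1, x2} := h.t.c0.tF.tfm (by simp)

lemma B_sub : ({F0, F1, F2} : Finset ℕ) ⊆ (G.tf {x0, x1, x2}).erase o := by
  intro i hi
  simp only [mem_insert, mem_singleton] at hi
  rw [mem_erase]
  rcases hi with rfl | rfl | rfl
  · exact ⟨h.t.c0.f2, h.mF0⟩
  · exact ⟨h.t.c1.f2, h.mF1⟩
  · exact ⟨h.t.c0.f1, h.mF2⟩

lemma B_card : ({F0, F1, F2} : Finset ℕ).card = 3 := by
  rw [card_insert_of_notMem (by simp [h.t.m01, h.t.m20.symm]), card_pair h.t.m12]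

lemma b0_notMem : b0 ∉ ({x0, x1, x2} : Finset ℕ) := by
  intro hb
  simp only [mem_insert, mem_singleton] at hb
  rcases hb with hb | hb | hb
  · exact h.s0.nb (hb ▸ h.t.c0.tO)
  · exact h.s0.nb (hb ▸ h.t.c1.tO)
  · exact h.s0.nb (hb ▸ h.t.c2.tO)

lemma b0_mem : b0 ∈ G.vs := h.s0.eb.symm.memv h.gd

/-- the weight of the three outer edges is positive -/
lemma w_pos : 1 ≤ G.w e0 + G.w e1 + G.w e2 := by
  obtain ⟨h1, h12, h13, h23⟩ := evenSet_triangle h.t.a0 h.t.a1 h.t.a2 h.t.n01 h.t.n12 h.t.n20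
  have h2 := h.mn.cls.girth {e0, e1, e2} (by
    intro d hd
    simp only [mem_insert, mem_singleton] at hd
    rcases hd with rfl | rfl | rfl
    · exact h.t.a0.1
    · exact h.t.a1.1
    · exact h.t.a2.1) h1 ⟨e0, by simp⟩
  rw [sum_insert (by simp [h12, h13]), sum_pair h23] at h2
  omega

lemma ws_pos : 1 ≤ G.ws (G.tds {x0, x1, x2}) := by
  have h1 : ({e0, e1, e2} : Finset ℕ) ⊆ G.tds {x0, x1, x2} := by
    intro d hd
    simp only [mem_insert, mem_singleton] at hd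
    rcases hd with rfl | rfl | rfl
    · exact mem_tds_iff.2 ⟨x0, by simp, h.t.a0.left⟩
    · exact mem_tds_iff.2 ⟨x1, by simp, h.t.a1.left⟩
    · exact mem_tds_iff.2 ⟨x2, by simp, h.t.a2.left⟩
  refine le_trans ?_ (ws_mono h1)
  obtain ⟨-, h12, h13, h23⟩ := evenSet_triangle h.t.a0 h.t.a1 h.t.a2 h.t.n01 h.t.n12 h.t.n20
  unfold ws
  rw [sum_insert (by simp [h12, h13]), sum_pair h23]
  have := h.w_pos
  omega

/-- the rest satisfies the bound -/
lemma ihE : 13 * (G.del {x0, x1, x2} o).tau ≤ (G.del {x0, x1, x2} o).pot 7 2 4 := by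
  refine h.mn.ih _ _ (h.mn.cls.del h.W_FC) ?_
  have h2 := del_card (u := o) h.W_sub
  rw [h.W_card] at h2
  omega

/-- K1: the inner neighbours are not free in the rest -/
lemma k1 : (G.del {x0, x1, x2} o).tau + 1 ≤ (G.del {x0, x1, x2} o).cost {b0} := by
  by_contra hcon
  have h1 := h.mn.toCx0.move_T (by norm_num) (W := {x0, x1, x2}) (T := {b0}) (X₀ := {x1, x2})
    (Y₀ := ∅) (B := {F0, F1, F2}) h.W_sub h.W_FC
    (singleton_subset_iff.2 (mem_sdiff.2 ⟨h.b0_mem, h.b0_notMem⟩))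
    (fun x hx => h.W_sub (by
      simp only [mem_insert, mem_singleton] at hx ⊢
      tauto)) (empty_subset _) h.B_sub (by
      intro d hd
      rcases h.W_edges hd with rfl | rfl | rfl | rfl | rfl | rfl
      · exact h.t.a0.symm.cov (by simp)
      · exact h.t.a1.cov (by simp)
      · exact h.t.a2.cov (by simp)
      · exact h.s0.eb.symm.cov (by simp)
      · exact h.s1.eb.cov (by simp)
      · exact h.s2.eb.cov (by simp))
  have h2 := h.ihE
  rw [h.W_card, h.B_card, card_pair h.t.n12, fpr_empty, nb_empty] at h1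
  omega

/-- K2 with `r` unusable faces (the set `R`) -/
lemma k2 {R : Finset ℕ} (hR : R ⊆ {F0, F1, F2}) (hRu : R ⊆ G.us) :
    (G.del {x0, x1, x2} o).pot 7 2 4 + G.ws (G.tds {x0, x1, x2}) + 2 * R.card <
      13 * (G.del {x0, x1, x2} o).tau + 12 := by
  have h1 := pot_del 7 2 4 h.gd h.mn.cls.huc h.W_sub
  have h2 := cost_del (G := G) (u := o) (W := {x0, x1, x2}) (S := ∅) (T := ∅)
    (X₀ := {x0, x1, x2}) (Y₀ := ∅) (h.mn.cls.del h.W_FC).good (empty_subset _) h.W_sub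
    (empty_subset _) (empty_subset _) (by
      intro d hd
      obtain ⟨x, hx, hdx⟩ := mem_tds_iff.1 hd
      exact star_cov hdx (mem_union_left _ hx))
  have h3 := h.mn.bad
  have hcs : G.cs = G.us := cs_eq h.mn.nn
  rw [hcs] at h1
  -- the faces
  have h4 : ({F0, F1, F2} \ R).card ≤ (G.tf {x0, x1, x2} \ G.us).card +
      (((G.tf {x0, x1, x2} ∩ G.us).erase o) \ R).card := by
    refine le_trans (card_le_card ?_) (card_union_le _ _)
    intro i hi
    obtain ⟨hi1, hi2⟩ := mem_sdiff.1 hi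
    obtain ⟨hi3, hi4⟩ := mem_erase.1 (h.B_sub hi1)
    by_cases h5 : i ∈ G.us
    · exact mem_union_right _ (mem_sdiff.2 ⟨mem_erase.2 ⟨hi3, mem_inter.2 ⟨hi4, h5⟩⟩, hi2⟩)
    · exact mem_union_left _ (mem_sdiff.2 ⟨hi4, h5⟩)
  have h5 : R ⊆ (G.tf {x0, x1, x2} ∩ G.us).erase o := by
    intro i hi
    obtain ⟨hi3, hi4⟩ := mem_erase.1 (h.B_sub (hR hi))
    exact mem_erase.2 ⟨hi3, mem_inter.2 ⟨hi4, hRu hi⟩⟩
  have h6 := card_sdiff_add_card_eq_card h5
  have h7 := card_sdiff_add_card_eq_card hR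
  rw [h.B_card] at h7
  rw [h.W_card] at h1
  rw [h.W_card, fpr_empty, nb_empty] at h2
  unfold tau at h3 ⊢
  omega

/-- K2 without unusable faces -/
lemma k2' : (G.del {x0, x1, x2} o).pot 7 2 4 + G.ws (G.tds {x0, x1, x2}) <
      13 * (G.del {x0, x1, x2} o).tau + 12 := by
  simpa using h.k2 (empty_subset _) (empty_subset _)

/-- Q3 -/
lemma k3 (hb : b0 ≠ b1) (h0 : G.Touch b0 F1) (h1 : G.Touch b1 F2) : False := by
  have key := spec_enc o G h.gd h.p1 g1 x1 b1 F0 F1 b0 h.s1.eb h.t.c1.sg h.t.m01 h.t.c1.f1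
    h.t.c1.f2 h.s0.bF' h0 h.s0.nb hb h.t.c1.tO F2 h1 h.t.m20 h.t.m12.symm
  exact key.2 e2 h.t.a2.1 h.t.c0.se

/-- the face `F0` is a triangle if `b0 = b1` -/
lemma edges_eq (hb : b0 = b1) {d : ℕ} (hd : d ∈ G.ds) (hi : G.l d = F0 ∨ G.r d = F0) :
    d = e0 ∨ d = g0 ∨ d = g1 := by
  classical
  have hg : g0 ≠ g1 := by
    rintro rfl
    rcases h.t.c0.sg.unique h.t.c1.sg with ⟨h1, h2⟩ | ⟨h1, h2⟩
    · exact h.t.m20 h1.symm
    · exact h.t.m12 h2
  have hS : ∀ {d a b : ℕ}, G.E d a b → (G.l d = F0 ∨ G.r d = F0) → (a = x0 ∨ a = x1 ∨ a = b0) →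
      d = e0 ∨ d = g0 ∨ d = g1 := by
    intro d a b hE hdi ha
    rcases ha with rfl | rfl | ha
    · have h1 := hE.left
      rw [h.t.c0.st] at h1
      simp only [mem_insert, mem_singleton] at h1
      rcases h1 with rfl | h1 | h1
      · exfalso
        rcases h.t.c0.se.side hdi with h2 | h2
        · exact h.t.c0.f2 h2
        · exact h.t.m20 h2.symm
      · exact Or.inr (Or.inl h1)
      · exact Or.inl h1
    · have h1 := hE.left
      rw [h.t.c1.st] at h1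
      simp only [mem_insert, mem_singleton] at h1
      rcases h1 with h1 | h1 | rfl
      · exact Or.inl h1
      · exact Or.inr (Or.inr h1)
      · exfalso
        rcases h.t.c1.se'.side hdi with h2 | h2
        · exact h.t.c1.f1 h2
        · exact h.t.m01 h2
    · by_contra hcon
      push Not at hcon
      have h1 := card_le_cnt (G := G) (v := b0) (i := F0) (T := {g0, g1, d}) (by
        intro e he
        simp only [mem_insert, mem_singleton] at he
        rcases he with rfl | rfl | rfl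
        · exact ⟨h.s0.eb.right, by rcases h.t.c0.sg with h2 | h2; exacts [Or.inr h2.2, Or.inl h2.1]⟩
        · refine ⟨?_, by rcases h.t.c1.sg with h2 | h2; exacts [Or.inl h2.1, Or.inr h2.2]⟩
          rw [hb]; exact h.s1.eb.right
        · exact ⟨ha ▸ hE.left, hdi⟩)
      have h2 := h.p1.cnt_le h.gd h.b0_mem F0
      rw [card_insert_of_notMem (by simp [hg, hcon.2.1.symm]), card_pair hcon.2.2.symm] at h1
      omega
  have hfe : ∀ {d : ℕ}, d = e0 ∨ d = g0 ∨ d = g1 → ∀ {v : ℕ}, d ∈ G.star v →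
      v = x0 ∨ v = x1 ∨ v = b0 := by
    intro d hd v hv
    rcases hd with rfl | rfl | rfl
    · rcases h.t.a0.ends hv with h1 | h1
      · exact Or.inl h1
      · exact Or.inr (Or.inl h1)
    · rcases h.s0.eb.ends hv with h1 | h1
      · exact Or.inl h1
      · exact Or.inr (Or.inr h1)
    · rcases h.s1.eb.ends hv with h1 | h1
      · exact Or.inr (Or.inl h1)
      · exact Or.inr (Or.inr (h1.trans hb.symm))
  have key := BC.vert (h.p1.bc F0) (f := fun v => if v = x0 ∨ v = x1 ∨ v = b0 then 1 else 0) (by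
    intro d hd hdi
    have hE : G.E d (G.p d) (G.q d) := ⟨hd, Or.inl ⟨rfl, rfl⟩⟩
    by_cases hp : G.p d = x0 ∨ G.p d = x1 ∨ G.p d = b0
    · have hq := hfe (hS hE hdi hp) hE.right
      simp only [if_pos hp, if_pos hq]
    · have hq : ¬ (G.q d = x0 ∨ G.q d = x1 ∨ G.q d = b0) :=
        fun hq => hp (hfe (hS hE.symm hdi hq) hE.left)
      simp only [if_neg hp, if_neg hq]) (v := G.p d) (v' := x0)
      ⟨d, mem_star.2 ⟨hd, Or.inl rfl⟩, hi⟩ h.t.c0.tF'
  have hp : G.p d = x0 ∨ G.p d = x1 ∨ G.p d = b0 := by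
    by_contra hcon
    simp only [if_neg hcon] at key
    simp at key
  exact hS ⟨hd, Or.inl ⟨rfl, rfl⟩⟩ hi hp

lemma g01 : g0 ≠ g1 := by
  rintro rfl
  rcases h.t.c0.sg.unique h.t.c1.sg with ⟨h1, h2⟩ | ⟨h1, h2⟩
  · exact h.t.m20 h1.symm
  · exact h.t.m12 h2

/-- K4: if `b0 = b1` then `F0` is unusable -/
lemma k4 (hb : b0 = b1) : F0 ∈ G.us := by
  classical
  by_contra hF
  have hFs : F0 ∈ G.fs := tf_sub h.gd h.mF0
  -- the length of `F0`
  have hE1 : G.E g1 x1 b0 := hb ▸ h.s1.eb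
  obtain ⟨hev, h12, h13, h23⟩ := evenSet_triangle h.t.a0 hE1 h.s0.eb.symm h.t.n01
    (fun hx => h.b0_notMem (by simp [← hx])) (fun hx => h.b0_notMem (by simp [← hx]))
  have hgir := h.mn.cls.girth {e0, g1, g0} (by
    intro d hd
    simp only [mem_insert, mem_singleton] at hd
    rcases hd with rfl | rfl | rfl
    · exact h.t.a0.1
    · exact h.s1.eb.1
    · exact h.s0.eb.1) hev ⟨e0, by simp⟩
  rw [sum_insert (by simp [h12, h13]), sum_pair h23] at hgir
  have hlen : F0 ∈ G.hs → 2 ≤ G.w e0 + G.w g0 + G.w g1 := by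
    intro hhs
    have h1 := h.mn.cls.hlen F0 hhs
    have h2 : G.ds.filter (fun d => G.l d = F0 ∨ G.r d = F0) ⊆ {e0, g1, g0} := by
      intro d hd
      obtain ⟨hd1, hd2⟩ := mem_filter.1 hd
      rcases h.edges_eq hb hd1 hd2 with rfl | rfl | rfl <;> simp
    have h3 := h1.trans (sum_le_sum_of_subset h2)
    rw [sum_insert (by simp [h12, h13]), sum_pair h23] at h3
    omega
  have key := h.mn.toCx0.move_w (by norm_num) (by norm_num) (W := {x0, x1, x2}) (X₀ := {x2})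
    (Y₀ := {F0}) (B := {F0, F1, F2}) (D := {e1, e2}) (D' := {e0, g1, g0}) h.W_sub ⟨x0, by simp⟩
    h.W_FC (singleton_subset_iff.2 (h.W_sub (by simp)))
    (singleton_subset_iff.2 (mem_sdiff.2 ⟨hFs, hF⟩)) h.B_sub (by
      intro d hd
      rcases h.W_edges hd with rfl | rfl | rfl | rfl | rfl | rfl
      · exact h.t.c0.se'.symm.cov (by simp)
      · exact h.t.a1.symm.cov (by simp)
      · exact h.t.a2.cov (by simp)
      · exact h.t.c0.sg.symm.cov (by simp)
      · exact h.t.c1.sg.cov (by simp)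
      · exact h.s2.eb.cov (by simp))
    (by
      intro d hd
      simp only [mem_insert, mem_singleton] at hd
      rcases hd with rfl | rfl
      · exact mem_tds_iff.2 ⟨x1, by simp, h.t.a1.left⟩
      · exact mem_tds_iff.2 ⟨x2, by simp, h.t.a2.left⟩)
    (by
      intro d hd
      simp only [mem_insert, mem_singleton] at hd
      rcases hd with rfl | rfl | rfl
      · exact mem_tds_iff.2 ⟨x0, by simp, h.t.a0.left⟩
      · exact mem_tds_iff.2 ⟨x1, by simp, h.s1.eb.left⟩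
      · exact mem_tds_iff.2 ⟨x0, by simp, h.s0.eb.left⟩)
    (by
      rw [disjoint_left]
      intro d hd hd'
      simp only [mem_insert, mem_singleton] at hd hd'
      have h1 : G.l d = F0 ∨ G.r d = F0 := by
        rcases hd' with rfl | rfl | rfl
        · rcases h.t.c0.se' with h2 | h2; exacts [Or.inr h2.2, Or.inl h2.1]
        · rcases h.t.c1.sg with h2 | h2; exacts [Or.inl h2.1, Or.inr h2.2]
        · rcases h.t.c0.sg with h2 | h2; exacts [Or.inr h2.2, Or.inl h2.1]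
      rcases hd with rfl | rfl
      · rcases h.t.c1.se'.side h1 with h2 | h2
        · exact h.t.c1.f1 h2
        · exact h.t.m01 h2
      · rcases h.t.c0.se.side h1 with h2 | h2
        · exact h.t.c0.f2 h2
        · exact h.t.m20 h2.symm)
    (by
      intro d hd
      simp only [mem_insert, mem_singleton] at hd
      rcases hd with rfl | rfl | rfl
      · rcases h.t.c0.se' with h2 | h2
        · right; rw [h2.2]; simp
        · left; rw [h2.1]; simp
      · rcases h.t.c1.sg with h2 | h2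
        · left; rw [h2.1]; simp
        · right; rw [h2.2]; simp
      · rcases h.t.c0.sg with h2 | h2
        · right; rw [h2.2]; simp
        · left; rw [h2.1]; simp)
  have hw : G.ws {e0, g1, g0} = G.w e0 + (G.w g1 + G.w g0) := by
    unfold ws
    rw [sum_insert (by simp [h12, h13]), sum_pair h23]
  rw [h.W_card, h.B_card, card_singleton, fpr_singleton, hw] at key
  split_ifs at key with hhs
  · have := hlen hhs
    omega
  · omega

/-- a further face at `b0` -/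
lemma further (h0 : ¬ G.Touch b0 F1) : ∃ i, G.Touch b0 i ∧ i ∉ G.tf {x0, x1, x2} ∧ i ≠ o := by
  classical
  by_contra hcon
  push Not at hcon
  have h1 : G.fv b0 ⊆ {F0, F2} := by
    intro i hi
    have h2 : G.Touch b0 i := mem_fv.1 hi
    have h3 : i ∈ G.tf {x0, x1, x2} := by
      by_contra h4
      exact h.s0.nb (hcon i h2 h4 ▸ h2)
    simp only [mem_insert, mem_singleton]
    rcases h.W_faces i h3 with rfl | rfl | rfl | rfl
    · exact absurd h2 h.s0.nb
    · exact Or.inl rfl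
    · exact absurd h2 h0
    · exact Or.inr rfl
  have h2 := (card_le_card h1).trans card_le_two
  have h3 := h.p1.card_fv h.gd h.b0_mem
  have h4 := h.s0.db
  omega

/-- the rest is not tight -/
lemma slack {B : Finset ℕ} (hB : ∀ i ∈ B, G.Touch b0 i ∧ i ∉ G.tf {x0, x1, x2} ∧ i ≠ o) :
    13 * (G.del {x0, x1, x2} o).tau + 7 + 2 * B.card ≤ (G.del {x0, x1, x2} o).pot 7 2 4 := by
  have hK := h.mn.cls.del h.W_FC
  have hbv : b0 ∈ (G.del {x0, x1, x2} o).vs := mem_sdiff.2 ⟨h.b0_mem, h.b0_notMem⟩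
  have htd := touch_del (u := o) h.gd h.b0_mem h.s0.eb.right
    (W := {x0, x1, x2}) (mem_tds_iff.2 ⟨x0, by simp, h.s0.eb.left⟩)
  have h1 := cost_T (a := 7) (b := 2) (c := 4) (N := 13) (m := m) (n := G.vs.card)
    (T := {b0}) (B := B) (by norm_num) (by norm_num) h.mn.ih hK
    (card_le_card sdiff_subset) (singleton_subset_iff.2 hbv) (singleton_nonempty _)
    (FC_single hK.good hbv htd)
    (by
      intro i hi
      obtain ⟨h2, h3, h4⟩ := hB i hi
      refine mem_erase.2 ⟨h4, mem_tf_single.2 ?_⟩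
      obtain ⟨d, hd, hdi⟩ := h2
      refine ⟨d, ?_, ?_⟩
      · rw [star_del]
        exact mem_sdiff.2 ⟨hd, side_not_tds h3 hdi⟩
      · have h5 := (phi_iff (W := {x0, x1, x2}) (u := o) (i := i) (j := G.l d) h3 h4).2
        have h6 := (phi_iff (W := {x0, x1, x2}) (u := o) (i := i) (j := G.r d) h3 h4).2
        rcases hdi with h7 | h7
        · exact Or.inl (h5 h7)
        · exact Or.inr (h6 h7))
  have h2 := h.k1
  rw [card_singleton] at h1
  omega

/-- K5: the face `F0` is not unusable -/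
lemma k5 : F0 ∉ G.us := by
  classical
  intro hF
  have h0 := h.slack (B := ∅) (by simp)
  have hws := h.ws_pos
  -- the other two faces are usable
  have hF1 : F1 ∉ G.us := by
    intro hF1
    have h1 := h.k2 (R := {F0, F1}) (by intro i hi; simp only [mem_insert, mem_singleton] at hi ⊢; tauto)
      (by
        intro i hi
        simp only [mem_insert, mem_singleton] at hi
        rcases hi with rfl | rfl
        · exact hF
        · exact hF1)
    rw [card_pair h.t.m01] at h1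
    rw [card_empty] at h0
    omega
  have hF2 : F2 ∉ G.us := by
    intro hF2
    have h1 := h.k2 (R := {F0, F2}) (by intro i hi; simp only [mem_insert, mem_singleton] at hi ⊢; tauto)
      (by
        intro i hi
        simp only [mem_insert, mem_singleton] at hi
        rcases hi with rfl | rfl
        · exact hF
        · exact hF2)
    rw [card_pair h.t.m20.symm] at h1
    rw [card_empty] at h0
    omega
  have h1 := h.k2 (R := {F0}) (by simp) (singleton_subset_iff.2 hF)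
  rw [card_singleton] at h1
  -- a further face at some inner neighbour gives a contradiction
  have h02 : b0 ≠ b2 := by
    intro h2
    exact hF2 (h.rotate.rotate.k4 h2.symm)
  have e1' : ({x1, x2, x0} : Finset ℕ) = {x0, x1, x2} := by
    ext i; simp only [mem_insert, mem_singleton]; tauto
  have e2' : ({x2, x0, x1} : Finset ℕ) = {x0, x1, x2} := by
    ext i; simp only [mem_insert, mem_singleton]; tauto
  have key0 : G.Touch b0 F1 := by
    by_contra h2
    obtain ⟨i, hi⟩ := h.further h2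
    have h3 := h.slack (B := {i}) (by simpa using hi)
    rw [card_singleton] at h3
    omega
  have key2 : G.Touch b2 F0 := by
    by_contra h2
    obtain ⟨i, hi⟩ := h.rotate.rotate.further h2
    have h3 := h.rotate.rotate.slack (B := {i}) (by simpa using hi)
    rw [card_singleton, e2'] at h3
    omega
  exact h.rotate.rotate.k3 h02.symm key2 key0

/-- K4 and K5: the inner neighbours are different -/
lemma b01 : b0 ≠ b1 := fun hb => h.k5 (h.k4 hb)

end Tsq

/-- K4, K5 -/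
theorem spec_Q3U (m : ℕ) : SpecQ3U m := by
  intro G o x0 x1 x2 e0 e1 e2 g0 g1 g2 F0 F1 F2 b0 b1 b2 h
  have t : G.Tsq m o x0 x1 x2 e0 e1 e2 g0 g1 g2 F0 F1 F2 b0 b1 b2 :=
    ⟨h.mn, h.p1, h.tri, h.s0, h.s1, h.s2⟩
  exact ⟨h, t.k5, t.rotate.k5, t.rotate.rotate.k5, t.b01, t.rotate.b01, t.rotate.rotate.b01⟩

end Gr

end Pool.Agent.Lib.MP06c549.T6H
end

section
/-!
# MP_06c549_co, T6H/K13: the outer face is not a triangle (weights 7, 2, 4, 13)
-/
set_option autoImplicit false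

namespace Pool.Agent.Lib.MP06c549.T6H

open Finset

namespace Gr

/-- the case `k = 3`, from the steps -/
theorem spec_Q3_of (m : ℕ) (hU : SpecQ3U m)
    (hN : SpecQ3Near m) (hL : SpecQ3Leg m) (hO : SpecQ3Opp m) (hA : SpecQ3Adj m)
    (hH : SpecQ3Hex m) (hC : SpecQ3Cen m) : SpecQ3 m := by
  intro G o x0 x1 x2 e0 e1 e2 g0 g1 g2 F0 F1 F2 hM h1 h2 h3 t
  obtain ⟨b0, s0⟩ := hM.spk par13 h1 h2 h3 t.c0
  obtain ⟨b1, s1⟩ := hM.spk par13 h1 h2 h3 t.c1
  obtain ⟨b2, s2⟩ := hM.spk par13 h1 h2 h3 t.c2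
  have h : Q3b m G o x0 x1 x2 e0 e1 e2 g0 g1 g2 F0 F1 F2 b0 b1 b2 :=
    hU _ _ _ _ _ _ _ _ _ _ _ _ _ _ _ _ _ ⟨hM, h1, h2, h3, t, s0, s1, s2,
      S7a.triangle hM.cls.good hM.cls.girth t.a0 t.a1 t.a2⟩
  obtain ⟨d0, d0', O0, l0⟩ := hL _ _ _ _ _ _ _ _ _ _ _ _ _ _ _ _ _ h
    (hO _ _ _ _ _ _ _ _ _ _ _ _ _ _ _ _ _ h)
  obtain ⟨d1, d1', O1, l1⟩ := hL _ _ _ _ _ _ _ _ _ _ _ _ _ _ _ _ _ h.rot
    (hO _ _ _ _ _ _ _ _ _ _ _ _ _ _ _ _ _ h.rot)
  obtain ⟨d2, d2', O2, l2⟩ := hL _ _ _ _ _ _ _ _ _ _ _ _ _ _ _ _ _ h.rot.rot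
    (hO _ _ _ _ _ _ _ _ _ _ _ _ _ _ _ _ _ h.rot.rot)
  have l1' := l1.rot.rot
  have l2' := l2.rot
  have a01 := hA _ _ _ _ _ _ _ _ _ _ _ _ _ _ _ _ _ _ _ _ _ _ _ _ _ _ h l0 l1' l2'
  have a12 := hA _ _ _ _ _ _ _ _ _ _ _ _ _ _ _ _ _ _ _ _ _ _ _ _ _ _ h.rot l1'.rot l2'.rot
    l0.rot
  have a20 := hA _ _ _ _ _ _ _ _ _ _ _ _ _ _ _ _ _ _ _ _ _ _ _ _ _ _ h.rot.rot l2'.rot.rot
    l0.rot.rot l1'.rot.rot
  rcases hN _ _ _ _ _ _ _ _ _ _ _ _ _ _ _ _ _ h with ⟨d, hd, -⟩ |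
    ⟨p0, q0, c0, hp0, hq0, -, -, k00, k01, k02⟩
  · exact a01 d hd
  rcases hN _ _ _ _ _ _ _ _ _ _ _ _ _ _ _ _ _ h.rot with ⟨d, hd, -⟩ |
    ⟨p1, q1, c1, hp1, hq1, -, -, k11, k12, k10⟩
  · exact a12 d hd
  rcases hN _ _ _ _ _ _ _ _ _ _ _ _ _ _ _ _ _ h.rot.rot with ⟨d, hd, -⟩ |
    ⟨p2, q2, c2, hp2, hq2, -, -, k22, k20, k21⟩
  · exact a20 d hd
  by_cases e01 : c0 = c1
  · subst e01
    exact hC _ _ _ _ _ _ _ _ _ _ _ _ _ _ _ _ _ _ _ _ _ _ _ _ _ _ _ _ _ _ h l0 l1' l2' a01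
      a12 a20 hp0 hp1 hq1.symm k00 k01 k02
  by_cases e12 : c1 = c2
  · subst e12
    exact hC _ _ _ _ _ _ _ _ _ _ _ _ _ _ _ _ _ _ _ _ _ _ _ _ _ _ _ _ _ _ h l0 l1' l2' a01
      a12 a20 hq2.symm hp1 hq1.symm k10 k11 k12
  by_cases e20 : c2 = c0
  · subst e20
    exact hC _ _ _ _ _ _ _ _ _ _ _ _ _ _ _ _ _ _ _ _ _ _ _ _ _ _ _ _ _ _ h l0 l1' l2' a01
      a12 a20 hp0 hq0.symm hp2 k00 k01 k02
  · exact hH _ _ _ _ _ _ _ _ _ _ _ _ _ _ _ _ _ _ _ _ _ _ _ _ _ _ _ _ _ _ _ _ _ _ _ h l0 l1'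
      l2' a01 a12 a20 hp0 hq0 hp1 hq1 hp2 hq2 k00 k01 k02 k10 k11 k12 k20 k21 k22 e01 e12 e20

/-- **the outer face is not a triangle** -/
theorem spec_Q3 (m : ℕ) : ∀ (G : Gr) (o x0 x1 x2 e0 e1 e2 g0 g1 g2 F0 F1 F2 : ℕ),
    Cx 7 2 4 13 m o G → G.P1 → G.P2 o → G.P3 o →
    G.Tri o x0 x1 x2 e0 e1 e2 g0 g1 g2 F0 F1 F2 → False :=
  spec_Q3_of m (spec_Q3U m) (spec_Q3Near m) (spec_Q3Leg' m) (spec_Q3Opp' m)
    (spec_Q3Adj m (spec_Q3Near m)) (spec_Q3Hex m) (spec_Q3Cen m)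

end Gr

end Pool.Agent.Lib.MP06c549.T6H
end
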